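import Mathlib
import Pool.Graph.R_seed8.Results.MP_20d613_pr.ExclusionVsOrdinary

set_option autoImplicit false

open Finset
open Pool.Agent.Results.MP_20d613_pr.ExclusionVsOrdinary

namespace Pool.Agent.KS6_99.EX

section Finite

variable {S K : Type*} [Fintype S] [Fintype K]
variable {c : K → ℝ} {τ : K → S → S}

omit [Fintype K] in
lemma sum_comp (hτ : ∀ k, Function.Bijective (τ k)) (k : K) (f : S → ℝ) :
    ∑ a, f (τ k a) = ∑ a, f a :=
  (hτ k).sum_comp f

lemma sum_gen_zero (hτ : ∀ k, Function.Bijective (τ k)) (f : S → ℝ) :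
    ∑ a, gen c τ f a = 0 := by
  unfold gen
  rw [Finset.sum_comm]
  apply Finset.sum_eq_zero
  intro k _
  rw [← Finset.mul_sum, Finset.sum_sub_distrib, sum_comp hτ k f, sub_self, mul_zero]

lemma sum_gen_self' (hτ : ∀ k, Function.Bijective (τ k)) (f : S → ℝ) :
    ∑ a, gen c τ f a * f a = - energy c τ f := by
  unfold gen energy
  simp_rw [Finset.sum_mul]
  rw [Finset.sum_comm, Finset.mul_sum, ← Finset.sum_neg_distrib]
  apply Finset.sum_congr rfl
  intro k _
  have h1 : ∑ a, (f (τ k a)) ^ 2 = ∑ a, f a ^ 2 := sum_comp hτ k (fun a => f a ^ 2)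
  have h2 : ∑ a, (f (τ k a) - f a) ^ 2 = 2 * ∑ a, f a ^ 2 - 2 * ∑ a, f (τ k a) * f a := by
    have : ∀ a, (f (τ k a) - f a) ^ 2
        = (f (τ k a)) ^ 2 + f a ^ 2 - 2 * (f (τ k a) * f a) := fun a => by ring
    simp_rw [this]
    rw [Finset.sum_sub_distrib, Finset.sum_add_distrib, h1, ← Finset.mul_sum]; ring
  have h3 : ∑ a, c k * (f (τ k a) - f a) * f a
      = c k * (∑ a, f (τ k a) * f a - ∑ a, f a ^ 2) := by
    rw [← Finset.sum_sub_distrib, Finset.mul_sum]
    exact Finset.sum_congr rfl fun a _ => by ring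
  rw [h2, h3]; ring

open Classical in
/-- existence of equilibrium potentials, for measure preserving moves -/
theorem exists_potential' (hτ : ∀ k, Function.Bijective (τ k)) (hc : ∀ k, 0 ≤ c k)
    {lam : ℝ} (hlam : 0 < lam) (C : S → Prop) :
    ∃ g, IsPotential c τ lam C g := by
  classical
  let T : (S → ℝ) →ₗ[ℝ] (S → ℝ) :=
    { toFun := fun f a => if C a then f a else lam * f a - gen c τ f a
      map_add' := fun f g => by
        funext a
        have := congrFun ((genLin c τ).map_add f g) a
        simp only [genLin, LinearMap.coe_mk, AddHom.coe_mk, Pi.add_apply] at this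
        by_cases h : C a
        · simp [h]
        · simp only [h, if_false, Pi.add_apply, this]; ring
      map_smul' := fun r f => by
        funext a
        have := congrFun ((genLin c τ).map_smul r f) a
        simp only [genLin, LinearMap.coe_mk, AddHom.coe_mk, Pi.smul_apply, smul_eq_mul] at this
        by_cases h : C a
        · simp [h]
        · simp only [h, if_false, Pi.smul_apply, smul_eq_mul, RingHom.id_apply, this]; ring }
  have hinj : Function.Injective T := by
    rw [injective_iff_map_eq_zero]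
    intro f hf
    have h1 : ∀ a, C a → f a = 0 := by
      intro a ha
      have := congrFun hf a
      simpa [T, ha] using this
    have h2 : ∀ a, ¬ C a → gen c τ f a = lam * f a := by
      intro a ha
      have := congrFun hf a
      simp only [T, LinearMap.coe_mk, AddHom.coe_mk, ha, if_false, Pi.zero_apply] at this
      linarith
    have h3 : ∑ a, gen c τ f a * f a = lam * ∑ a, f a ^ 2 := by
      rw [Finset.mul_sum]
      apply Finset.sum_congr rfl
      intro a _
      by_cases h : C a
      · simp [h1 a h]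
      · rw [h2 a h]; ring
    rw [sum_gen_self' hτ] at h3
    have h4 := energy_nonneg c τ hc f
    have h5 : ∑ a, f a ^ 2 = 0 := by
      have h6 : 0 ≤ ∑ a, f a ^ 2 := Finset.sum_nonneg fun a _ => sq_nonneg _
      nlinarith
    funext a
    have := (Finset.sum_eq_zero_iff_of_nonneg (fun a _ => sq_nonneg (f a))).1 h5 a
      (Finset.mem_univ a)
    exact pow_eq_zero_iff (two_ne_zero) |>.1 this
  have hsurj : Function.Surjective T := LinearMap.injective_iff_surjective.1 hinj
  obtain ⟨g, hg⟩ := hsurj (fun a => if C a then 1 else 0)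
  have hg1 : ∀ a, C a → g a = 1 := by
    intro a ha
    have := congrFun hg a
    simpa [T, ha] using this
  have hg2 : ∀ a, ¬ C a → gen c τ g a = lam * g a := by
    intro a ha
    have := congrFun hg a
    simp only [T, LinearMap.coe_mk, AddHom.coe_mk, ha, if_false] at this
    linarith
  refine ⟨g, hg1, hg2, ?_, ?_⟩
  · intro a
    by_contra hneg
    push Not at hneg
    obtain ⟨b, _, hb⟩ := Finset.exists_min_image (Finset.univ : Finset S) g ⟨a, Finset.mem_univ a⟩
    have hbneg : g b < 0 := (hb a (Finset.mem_univ a)).trans_lt hneg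
    have hbC : ¬ C b := fun h => by rw [hg1 b h] at hbneg; linarith
    have h1 := hg2 b hbC
    have h2 : 0 ≤ gen c τ g b := by
      unfold gen
      exact Finset.sum_nonneg fun k _ => mul_nonneg (hc k)
        (sub_nonneg.2 (hb _ (Finset.mem_univ _)))
    nlinarith
  · intro a
    by_contra hneg
    push Not at hneg
    obtain ⟨b, _, hb⟩ := Finset.exists_max_image (Finset.univ : Finset S) g ⟨a, Finset.mem_univ a⟩
    have hbneg : 1 < g b := hneg.trans_le (hb a (Finset.mem_univ a))
    have hbC : ¬ C b := fun h => by rw [hg1 b h] at hbneg; linarith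
    have h1 := hg2 b hbC
    have h2 : gen c τ g b ≤ 0 := by
      unfold gen
      exact Finset.sum_nonpos fun k _ => mul_nonpos_of_nonneg_of_nonpos (hc k)
        (sub_nonpos.2 (hb _ (Finset.mem_univ _)))
    nlinarith

lemma test' (hτ : ∀ k, Function.Bijective (τ k)) {lam : ℝ} {C : S → Prop} {g : S → ℝ}
    (hg : IsPotential c τ lam C g) {f : S → ℝ} (hf : ∀ a, C a → f a = 1) :
    lam * ∑ a, g a * f a - ∑ a, gen c τ g a * f a = lam * ∑ a, g a := by
  have h1 : lam * ∑ a, g a * f a - ∑ a, gen c τ g a * f a
      = ∑ a, (lam * g a - gen c τ g a) * f a := by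
    rw [Finset.mul_sum, ← Finset.sum_sub_distrib]
    exact Finset.sum_congr rfl fun a _ => by ring
  have h2 : ∑ a, (lam * g a - gen c τ g a) * f a = ∑ a, (lam * g a - gen c τ g a) := by
    apply Finset.sum_congr rfl
    intro a _
    by_cases h : C a
    · rw [hf a h, mul_one]
    · rw [hg.harm a h]; ring
  rw [h1, h2, Finset.sum_sub_distrib, sum_gen_zero hτ, Finset.mul_sum, sub_zero]

theorem eq_energy' (hτ : ∀ k, Function.Bijective (τ k)) {lam : ℝ} {C : S → Prop} {g : S → ℝ}
    (hg : IsPotential c τ lam C g) : lam * ∑ a, g a = energyL lam c τ g := by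
  have h2 := test' hτ hg hg.one
  rw [← h2, sum_gen_self' hτ]
  unfold energyL
  have : ∑ a, g a * g a = ∑ a, g a ^ 2 := Finset.sum_congr rfl fun a _ => by ring
  rw [this]; ring

/-- comparison of a potential with a test function, without reversibility -/
theorem compare_abstract (hτ : ∀ k, Function.Bijective (τ k)) (hc : ∀ k, 0 ≤ c k)
    {lam : ℝ} (hlam : 0 < lam) {C : S → Prop} {g : S → ℝ} (hg : IsPotential c τ lam C g)
    {f : S → ℝ} (hf : ∀ a, C a → f a = 1) (w : K → S → ℝ) (hw : ∀ k a, w k (τ k a) = w k a) :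
    lam * ∑ a, g a ≤ lam * ∑ a, f a ^ 2 + 2 * ∑ k, c k * ∑ a, (f a - w k a) ^ 2 := by
  have h1 := test' hτ hg hf
  have h2 := eq_energy' hτ hg
  have h3 : ∑ a, gen c τ g a * f a = ∑ k, c k * ∑ a, (g (τ k a) - g a) * (f a - w k a) := by
    unfold gen
    simp_rw [Finset.sum_mul]
    rw [Finset.sum_comm]
    apply Finset.sum_congr rfl
    intro k _
    have e1 : ∑ a, g (τ k a) * w k a = ∑ a, g a * w k a := by
      have := sum_comp hτ k (fun a => g a * w k a)
      simp only [hw] at this
      exact this
    have e2 : ∑ a, (g (τ k a) - g a) * (f a - w k a)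
        = ∑ a, (g (τ k a) - g a) * f a - (∑ a, g (τ k a) * w k a - ∑ a, g a * w k a) := by
      rw [← Finset.sum_sub_distrib, ← Finset.sum_sub_distrib]
      exact Finset.sum_congr rfl fun a _ => by ring
    rw [e2, e1, sub_self, sub_zero, Finset.mul_sum]
    exact Finset.sum_congr rfl fun a _ => by ring
  have h4 : - ∑ a, gen c τ g a * f a ≤
      (1 / 2) * energy c τ g + ∑ k, c k * ∑ a, (f a - w k a) ^ 2 := by
    rw [h3, ← Finset.sum_neg_distrib]
    unfold energy
    rw [← mul_assoc, Finset.mul_sum, ← Finset.sum_add_distrib]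
    apply Finset.sum_le_sum
    intro k _
    have e3 : - ∑ a, (g (τ k a) - g a) * (f a - w k a) ≤
        (1 / 2 * (1 / 2)) * ∑ a, (g (τ k a) - g a) ^ 2 + ∑ a, (f a - w k a) ^ 2 := by
      rw [← Finset.sum_neg_distrib, Finset.mul_sum, ← Finset.sum_add_distrib]
      apply Finset.sum_le_sum
      intro a _
      nlinarith [sq_nonneg ((g (τ k a) - g a) / 2 + (f a - w k a))]
    have := mul_le_mul_of_nonneg_left e3 (hc k)
    calc -(c k * ∑ a, (g (τ k a) - g a) * (f a - w k a))
        = c k * - ∑ a, (g (τ k a) - g a) * (f a - w k a) := by ring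
      _ ≤ _ := this
      _ = _ := by ring
  have h5 : ∑ a, g a * f a ≤ (1 / 2) * ∑ a, g a ^ 2 + (1 / 2) * ∑ a, f a ^ 2 := by
    rw [Finset.mul_sum, Finset.mul_sum, ← Finset.sum_add_distrib]
    apply Finset.sum_le_sum
    intro a _
    nlinarith [sq_nonneg (g a - f a)]
  have h6 := mul_le_mul_of_nonneg_left h5 hlam.le
  unfold energyL at h2
  nlinarith

end Finite

section Cube

variable {V : Type*} [DecidableEq V]

lemma flip_comm (x y : V) (a : V → Bool) : flipAt x (flipAt y a) = flipAt y (flipAt x a) := by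
  by_cases h : x = y
  · rw [h]
  · unfold flipAt
    rw [Function.update_of_ne h, Function.update_of_ne (Ne.symm h), Function.update_comm h]

/-- a function which is invariant under the flips of the bits of `B` depends only on the others -/
lemma inv_of_flips {β : Type*} {h : (V → Bool) → β} (B : Finset V) :
    (∀ y ∈ B, ∀ a, h (flipAt y a) = h a) → ∀ a b, (∀ x, x ∉ B → a x = b x) → h a = h b := by
  induction B using Finset.induction_on with
  | empty =>
    intro _ a b hab
    congr 1
    funext x
    exact hab x (Finset.notMem_empty x)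
  | insert y B hy ih =>
    intro hB a b hab
    have ih' := ih fun z hz => hB z (Finset.mem_insert_of_mem hz)
    by_cases he : a y = b y
    · apply ih'
      intro x hx
      by_cases hxy : x = y
      · rw [hxy]; exact he
      · exact hab x (by simp [hxy, hx])
    · rw [← hB y (Finset.mem_insert_self y B) b]
      apply ih'
      intro x hx
      unfold flipAt
      by_cases hxy : x = y
      · subst hxy
        rw [Function.update_self]
        revert he; cases a x <;> cases b x <;> simp
      · rw [Function.update_of_ne hxy]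
        exact hab x (by simp [hxy, hx])

lemma path_le {g : (V → Bool) → ℝ} {w : V → ℝ} (hw : ∀ x a, |g (flipAt x a) - g a| ≤ w x)
    (B : Finset V) : ∀ a b, (∀ x, x ∉ B → a x = b x) → |g a - g b| ≤ ∑ x ∈ B, w x := by
  induction B using Finset.induction_on with
  | empty =>
    intro a b hab
    have : a = b := funext fun x => hab x (Finset.notMem_empty x)
    simp [this]
  | insert y B hy ih =>
    intro a b hab
    rw [Finset.sum_insert hy]
    have hwy : 0 ≤ w y := (abs_nonneg _).trans (hw y a)
    by_cases he : a y = b y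
    · have := ih a b (by
        intro x hx
        by_cases hxy : x = y
        · rw [hxy]; exact he
        · exact hab x (by simp [hxy, hx]))
      linarith
    · have h1 := ih a (flipAt y b) (by
        intro x hx
        unfold flipAt
        by_cases hxy : x = y
        · subst hxy
          rw [Function.update_self]
          revert he; cases a x <;> cases b x <;> simp
        · rw [Function.update_of_ne hxy]
          exact hab x (by simp [hxy, hx]))
      have h2 := hw y b
      have h3 : |g a - g b| ≤ |g a - g (flipAt y b)| + |g (flipAt y b) - g b| := by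
        have := abs_add_le (g a - g (flipAt y b)) (g (flipAt y b) - g b)
        simpa using this
      linarith

/-- average over the bit `x` -/
noncomputable def av (x : V) (f : (V → Bool) → ℝ) (a : V → Bool) : ℝ :=
  (f a + f (flipAt x a)) / 2

/-- average over the bits of a list -/
noncomputable def avs : List V → ((V → Bool) → ℝ) → (V → Bool) → ℝ
  | [], f => f
  | x :: l, f => av x (avs l f)

lemma av_flip_self (x : V) (f : (V → Bool) → ℝ) (a : V → Bool) :
    av x f (flipAt x a) = av x f a := by
  unfold av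
  rw [flipAt_flipAt]; ring

lemma avs_flip (l : List V) (f : (V → Bool) → ℝ) :
    ∀ y ∈ l, ∀ a, avs l f (flipAt y a) = avs l f a := by
  induction l with
  | nil => intro y hy; simp at hy
  | cons x l ih =>
    intro y hy a
    rcases List.mem_cons.1 hy with h | h
    · subst h; exact av_flip_self y _ a
    · simp only [avs, av]
      rw [ih y h a, flip_comm x y a, ih y h (flipAt x a)]

variable [Fintype V]

lemma sum_flip (x : V) (f : (V → Bool) → ℝ) : ∑ a, f (flipAt x a) = ∑ a, f a :=
  (show Function.Involutive (flipAt x) from fun a => flipAt_flipAt x a).bijective.sum_comp f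

lemma sum_sub_av_sq (x : V) (f : (V → Bool) → ℝ) :
    ∑ a, (f a - av x f a) ^ 2 = (1 / 4) * gradSq f x := by
  unfold av gradSq
  rw [Finset.mul_sum]
  exact Finset.sum_congr rfl fun a _ => by ring

lemma sum_av_sq_le (x : V) (h : (V → Bool) → ℝ) : ∑ a, (av x h a) ^ 2 ≤ ∑ a, h a ^ 2 := by
  have h1 : ∑ a, (av x h a) ^ 2 ≤ ∑ a, ((1 / 2) * h a ^ 2 + (1 / 2) * h (flipAt x a) ^ 2) := by
    apply Finset.sum_le_sum
    intro a _
    unfold av
    nlinarith [sq_nonneg (h a - h (flipAt x a))]
  rw [Finset.sum_add_distrib, ← Finset.mul_sum, ← Finset.mul_sum,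
    sum_flip x (fun a => h a ^ 2)] at h1
  linarith

lemma sum_orth (x : V) (f h : (V → Bool) → ℝ) : ∑ a, (f a - av x f a) * av x h a = 0 := by
  have h1 := sum_flip x (fun a => (f a - av x f a) * av x h a)
  have h2 : ∀ a, (f (flipAt x a) - av x f (flipAt x a)) * av x h (flipAt x a)
      = - ((f a - av x f a) * av x h a) := by
    intro a
    rw [av_flip_self, av_flip_self]
    unfold av; ring
  simp only [h2, Finset.sum_neg_distrib] at h1
  linarith

/-- the inequality of Efron and Stein -/
lemma avs_sq_le (l : List V) (f : (V → Bool) → ℝ) :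
    ∑ a, (f a - avs l f a) ^ 2 ≤ (1 / 4) * (l.map (gradSq f)).sum := by
  induction l with
  | nil => simp [avs]
  | cons x l ih =>
    have h1 : ∑ a, (f a - avs (x :: l) f a) ^ 2
        = ∑ a, (f a - av x f a) ^ 2 + ∑ a, (av x (fun a => f a - avs l f a) a) ^ 2 := by
      have h2 := sum_orth x f (fun a => f a - avs l f a)
      have h3 : ∀ a, (f a - avs (x :: l) f a) ^ 2 = (f a - av x f a) ^ 2
          + (av x (fun a => f a - avs l f a) a) ^ 2
          + 2 * ((f a - av x f a) * av x (fun a => f a - avs l f a) a) := by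
        intro a
        simp only [avs, av]; ring
      simp_rw [h3]
      rw [Finset.sum_add_distrib, Finset.sum_add_distrib, ← Finset.mul_sum, h2]; ring
    rw [h1, sum_sub_av_sq, List.map_cons, List.sum_cons]
    have := sum_av_sq_le x (fun a => f a - avs l f a)
    linarith

variable {K : Type*} [Fintype K] {c : K → ℝ} {τ : K → (V → Bool) → (V → Bool)}
  {b : K → Finset V}

/-- comparison of a potential of local measure preserving moves with a test function -/
theorem compare_grad (hτ : ∀ k, Function.Bijective (τ k)) (hc : ∀ k, 0 ≤ c k)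
    (hoff : ∀ k a x, x ∉ b k → τ k a x = a x)
    {lam : ℝ} (hlam : 0 < lam) {C : (V → Bool) → Prop} {g : (V → Bool) → ℝ}
    (hg : IsPotential c τ lam C g) {f : (V → Bool) → ℝ} (hf : ∀ a, C a → f a = 1) :
    lam * ∑ a, g a ≤ lam * ∑ a, f a ^ 2 + (1 / 2) * ∑ k, c k * ∑ x ∈ b k, gradSq f x := by
  have h1 := compare_abstract hτ hc hlam hg hf (fun k => avs (b k).toList f) (by
    intro k a
    apply inv_of_flips (b k)
    · intro y hy a
      exact avs_flip _ f y (Finset.mem_toList.2 hy) a
    · exact fun x hx => hoff k a x hx)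
  refine h1.trans ?_
  have h2 : ∑ k, c k * ∑ a, (f a - avs (b k).toList f a) ^ 2 ≤
      ∑ k, c k * ((1 / 4) * ∑ x ∈ b k, gradSq f x) := by
    apply Finset.sum_le_sum
    intro k _
    apply mul_le_mul_of_nonneg_left _ (hc k)
    have := avs_sq_le (b k).toList f
    rwa [Finset.sum_map_toList] at this
  have h3 : ∑ k, c k * ((1 / 4) * ∑ x ∈ b k, gradSq f x)
      = (1 / 4) * ∑ k, c k * ∑ x ∈ b k, gradSq f x := by
    rw [Finset.mul_sum]
    exact Finset.sum_congr rfl fun k _ => by ring
  rw [h3] at h2
  linarith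

/-- comparison of the equilibrium potentials of two dynamics; the second one flips every bit which
is used by the first one at rate at least `ε` -/
theorem compare_two {K' : Type*} [Fintype K'] {c' : K' → ℝ} {τ' : K' → (V → Bool) → (V → Bool)}
    (hτ : ∀ k, Function.Bijective (τ k)) (hc : ∀ k, 0 ≤ c k)
    (hoff : ∀ k a x, x ∉ b k → τ k a x = a x)
    (hτ' : ∀ k, Function.Bijective (τ' k)) (hc' : ∀ k, 0 ≤ c' k)
    {M : ℝ} (hM0 : 0 ≤ M) (hM : ∀ x, ∑ k, (if x ∈ b k then c k else 0) ≤ M)
    {ε : ℝ} (hε : 0 < ε) (U : Finset V) (hU : ∀ k, b k ⊆ U)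
    (hφ : ∀ x ∈ U, ∃ k, (∀ a, τ' k a = flipAt x a) ∧ ε ≤ c' k)
    {lam : ℝ} (hlam : 0 < lam) {C : (V → Bool) → Prop} {g u : (V → Bool) → ℝ}
    (hg : IsPotential c τ lam C g) (hu : IsPotential c' τ' lam C u) :
    ∑ a, g a ≤ (1 + M / ε) * ∑ a, u a := by
  classical
  have h1 := compare_grad hτ hc hoff hlam hg hu.one
  have h2 := eq_energy' hτ' hu
  have h3 : ∑ k, c k * ∑ x ∈ b k, gradSq u x ≤ M * ∑ x ∈ U, gradSq u x := by
    have e1 : ∀ k, c k * ∑ x ∈ b k, gradSq u x
        = ∑ x ∈ U, (if x ∈ b k then c k else 0) * gradSq u x := by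
      intro k
      rw [Finset.mul_sum, ← Finset.sum_subset (hU k)]
      · apply Finset.sum_congr rfl
        intro x hx
        rw [if_pos hx]
      · intro x _ hx
        rw [if_neg hx, zero_mul]
    simp_rw [e1]
    rw [Finset.sum_comm, Finset.mul_sum]
    apply Finset.sum_le_sum
    intro x _
    rw [← Finset.sum_mul]
    exact mul_le_mul_of_nonneg_right (hM x) (gradSq_nonneg u x)
  have h4 : (ε / 2) * ∑ x ∈ U, gradSq u x ≤ energy c' τ' u := by
    unfold energy
    rcases U.eq_empty_or_nonempty with hUe | ⟨x0, hx0⟩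
    · rw [hUe, Finset.sum_empty, mul_zero]
      exact mul_nonneg (by norm_num) (Finset.sum_nonneg fun k _ =>
        mul_nonneg (hc' k) (Finset.sum_nonneg fun a _ => sq_nonneg _))
    have : Nonempty K' := ⟨(hφ x0 hx0).choose⟩
    choose! φ hφ hφc using hφ
    have hφi : Set.InjOn φ U := by
      intro x hx y hy hxy
      by_contra hne
      have h1 := hφ x hx (fun _ => false)
      have h2 := hφ y hy (fun _ => false)
      rw [hxy, h2] at h1
      have h3 := congrFun h1 y
      unfold flipAt at h3
      rw [Function.update_self, Function.update_of_ne (Ne.symm hne)] at h3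
      simp at h3
    have e2 : ∑ x ∈ U, c' (φ x) * ∑ a, (u (τ' (φ x) a) - u a) ^ 2
        ≤ ∑ k, c' k * ∑ a, (u (τ' k a) - u a) ^ 2 := by
      rw [← Finset.sum_image (s := U) (g := φ)
        (f := fun k => c' k * ∑ a, (u (τ' k a) - u a) ^ 2) hφi]
      apply Finset.sum_le_sum_of_subset_of_nonneg (Finset.subset_univ _)
      intro k _ _
      exact mul_nonneg (hc' k) (Finset.sum_nonneg fun a _ => sq_nonneg _)
    have e3 : ε * ∑ x ∈ U, gradSq u x
        ≤ ∑ x ∈ U, c' (φ x) * ∑ a, (u (τ' (φ x) a) - u a) ^ 2 := by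
      rw [Finset.mul_sum]
      apply Finset.sum_le_sum
      intro x hx
      have : ∑ a, (u (τ' (φ x) a) - u a) ^ 2 = gradSq u x := by
        unfold gradSq
        exact Finset.sum_congr rfl fun a _ => by rw [hφ x hx a]
      rw [this]
      exact mul_le_mul_of_nonneg_right (hφc x hx) (gradSq_nonneg u x)
    linarith
  have h5 : 0 ≤ ∑ x ∈ U, gradSq u x := Finset.sum_nonneg fun x _ => gradSq_nonneg u x
  have h6 : (1 / 2) * (M * ∑ x ∈ U, gradSq u x) ≤ (M / ε) * energy c' τ' u := by
    have e4 := mul_le_mul_of_nonneg_left h4 (div_nonneg hM0 hε.le)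
    have e5 : M / ε * (ε / 2 * ∑ x ∈ U, gradSq u x) = (1 / 2) * (M * ∑ x ∈ U, gradSq u x) := by
      field_simp
    linarith
  have h7 : 0 ≤ lam * ∑ a, u a ^ 2 :=
    mul_nonneg hlam.le (Finset.sum_nonneg fun a _ => sq_nonneg _)
  have h8 : 0 ≤ energy c' τ' u := energy_nonneg c' τ' hc' u
  have h9 : 0 ≤ M / ε := div_nonneg hM0 hε.le
  have h10 : lam * ∑ a, g a ≤ (1 + M / ε) * (lam * ∑ a, u a) := by
    rw [h2]
    unfold energyL
    nlinarith
  have h11 : lam * ∑ a, g a ≤ lam * ((1 + M / ε) * ∑ a, u a) := by
    calc _ ≤ _ := h10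
      _ = _ := by ring
  exact le_of_mul_le_mul_left h11 hlam

/-- the influence of one bit on an equilibrium potential -/
theorem grad_le' (hc : ∀ k, 0 ≤ c k)
    (hoff : ∀ k a x, x ∉ b k → τ k a x = a x)
    (hloc : ∀ k a a', (∀ x ∈ b k, a x = a' x) → ∀ x ∈ b k, τ k a x = τ k a' x)
    {lam : ℝ} {C : (V → Bool) → Prop} {g : (V → Bool) → ℝ}
    (hg : IsPotential c τ lam C g) (L0 : V → Prop)
    (hC : ∀ x, ¬ L0 x → ∀ a, C (flipAt x a) ↔ C a)
    {N : ℝ} (hN : N < lam) (hNb : ∀ x, ∑ k, (if x ∈ b k then c k * (b k).card else 0) ≤ N)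
    (H : V → ℝ) (hH : ∀ x, 0 ≤ H x) (hH1 : ∀ x, L0 x → 1 ≤ H x)
    (hHs : ∀ x, ∑ k, (if x ∈ b k then c k * ∑ y ∈ b k, H y else 0) ≤ lam * H x)
    (x : V) (a : V → Bool) :
    |g (flipAt x a) - g a| ≤ H x := by
  classical
  by_contra hcon
  push Not at hcon
  obtain ⟨⟨y, d⟩, _, hmax⟩ := Finset.exists_max_image (Finset.univ : Finset (V × (V → Bool)))
    (fun q => |g (flipAt q.1 q.2) - g q.2| - H q.1) ⟨(x, a), Finset.mem_univ _⟩
  set ρ : ℝ := |g (flipAt y d) - g d| - H y with hρ
  have hρpos : 0 < ρ := by
    have := hmax (x, a) (Finset.mem_univ _)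
    simp only at this
    linarith
  have hle : ∀ (y' : V) (b' : V → Bool), |g (flipAt y' b') - g b'| ≤ ρ + H y' := by
    intro y' b'
    have := hmax (y', b') (Finset.mem_univ _)
    simp only at this
    linarith
  have hyL : ¬ L0 y := by
    intro h
    have h1 := hH1 y h
    have h2 : |g (flipAt y d) - g d| ≤ 1 := by
      rw [abs_le]
      have := hg.nonneg (flipAt y d)
      have := hg.le_one (flipAt y d)
      have := hg.nonneg d
      have := hg.le_one d
      constructor <;> linarith
    linarith
  have hbC : ¬ C d := by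
    intro h
    have h' : C (flipAt y d) := (hC y hyL d).2 h
    rw [hρ, hg.one _ h, hg.one _ h'] at hρpos
    simp only [sub_self, abs_zero] at hρpos
    have := hH y
    linarith
  have hbC' : ¬ C (flipAt y d) := fun h => hbC ((hC y hyL d).1 h)
  have h1 := hg.harm _ hbC
  have h2 := hg.harm _ hbC'
  set D : ℝ := g (flipAt y d) - g d with hD
  set R : ℝ := ∑ k, c k with hR
  have hRnn : 0 ≤ R := Finset.sum_nonneg fun k _ => hc k
  have h3 : (lam + R) * D = ∑ k, c k * (g (τ k (flipAt y d)) - g (τ k d)) := by
    have h4 : lam * D = gen c τ g (flipAt y d) - gen c τ g d := by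
      rw [h1, h2, hD]; ring
    have h5 : gen c τ g (flipAt y d) - gen c τ g d
        = ∑ k, (c k * (g (τ k (flipAt y d)) - g (τ k d)) - c k * D) := by
      unfold gen
      rw [← Finset.sum_sub_distrib]
      apply Finset.sum_congr rfl
      intro k _
      rw [hD]; ring
    rw [Finset.sum_sub_distrib, ← Finset.sum_mul] at h5
    rw [add_mul, h4, h5]; ring
  have hN0 : 0 ≤ N := (Finset.sum_nonneg fun k _ => by
    split_ifs
    · exact mul_nonneg (hc k) (Nat.cast_nonneg _)
    · exact le_rfl).trans (hNb y)
  have h6 : (lam + R) * |D| ≤ ∑ k, (c k * |D| - (if y ∈ b k then c k else 0) * |D|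
      + (if y ∈ b k then c k * (b k).card else 0) * ρ
      + (if y ∈ b k then c k * ∑ z ∈ b k, H z else 0)) := by
    have hlr : 0 ≤ lam + R := by linarith
    have : (lam + R) * |D| = |(lam + R) * D| := by
      rw [abs_mul, abs_of_nonneg hlr]
    rw [this, h3]
    refine (Finset.abs_sum_le_sum_abs _ _).trans ?_
    apply Finset.sum_le_sum
    intro k _
    rw [abs_mul, abs_of_nonneg (hc k)]
    by_cases hy : y ∈ b k
    · simp only [hy, if_true]
      have e1 : |g (τ k (flipAt y d)) - g (τ k d)| ≤ ∑ z ∈ b k, (ρ + H z) := by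
        apply path_le hle
        intro z hz
        rw [hoff k _ z hz, hoff k _ z hz]
        unfold flipAt
        rw [Function.update_of_ne]
        intro h
        exact hz (h ▸ hy)
      rw [Finset.sum_add_distrib, Finset.sum_const, nsmul_eq_mul] at e1
      have := mul_le_mul_of_nonneg_left e1 (hc k)
      linarith
    · simp only [hy, if_false, zero_mul, sub_zero, add_zero]
      apply mul_le_mul_of_nonneg_left _ (hc k)
      have e2 : τ k (flipAt y d) = flipAt y (τ k d) := by
        funext z
        by_cases hz : z ∈ b k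
        · have hzy : z ≠ y := fun h => hy (h ▸ hz)
          rw [hloc k (flipAt y d) d (fun x hx => by
            unfold flipAt
            rw [Function.update_of_ne (fun h => hy (by rw [← h]; exact hx))]) z hz]
          conv_rhs => unfold flipAt
          rw [Function.update_of_ne hzy]
        · rw [hoff k _ z hz]
          unfold flipAt
          by_cases hzy : z = y
          · subst hzy
            rw [Function.update_self, Function.update_self, hoff k _ z hz]
          · rw [Function.update_of_ne hzy, Function.update_of_ne hzy, hoff k _ z hz]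
      rw [e2]
      have := hle y (τ k d)
      have h10 : |D| = ρ + H y := by rw [hρ]; ring
      rw [h10]; exact this
  rw [Finset.sum_add_distrib, Finset.sum_add_distrib, Finset.sum_sub_distrib, ← Finset.sum_mul,
    ← Finset.sum_mul, ← Finset.sum_mul] at h6
  have h7 := hHs y
  have h8 := hNb y
  have h9 : 0 ≤ ∑ k, (if y ∈ b k then c k else 0) := Finset.sum_nonneg fun k _ => by
    split_ifs
    · exact hc k
    · exact le_rfl
  have h10 : |D| = ρ + H y := by rw [hρ]; ring
  have h11 : (∑ k, (if y ∈ b k then c k * ((b k).card : ℝ) else 0)) * ρ ≤ N * ρ :=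
    mul_le_mul_of_nonneg_right h8 hρpos.le
  have h12 : 0 ≤ (∑ k, (if y ∈ b k then c k else 0)) * |D| := mul_nonneg h9 (abs_nonneg _)
  have h13 : lam * |D| ≤ N * ρ + lam * H y := by
    have : (lam + R) * |D| = lam * |D| + R * |D| := by ring
    linarith
  rw [h10] at h13
  nlinarith

end Cube

end Pool.Agent.KS6_99.EX
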