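import Mathlib
import Pool.Graph.R_seed8.Results.MP_20d613_pr.ExclusionVsOrdinary
import Pool.Agent.KS6_99.EX.Fin

set_option autoImplicit false

open MeasureTheory Filter Topology
open Pool.Agent.Results.MP_20d613_pr.ExclusionVsOrdinary

namespace Pool.Agent.KS6_99.EX

/-- A local dynamics on `{0,1}^I` which preserves fair coin flips: at rate `rate j` the
configuration `ω` is replaced by `move j ω`, where `move j` is a permutation of the configurations
which changes only the bits in the finite set `block j`, in a way that depends only on these bits. -/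
structure Dynamics (I J : Type*) where
  /-- the bits used by a move -/
  block : J → Finset I
  /-- the rate of a move -/
  rate : J → ℝ
  /-- the effect of a move -/
  move : J → Equiv.Perm (I → Bool)
  rate_nonneg : ∀ j, 0 ≤ rate j
  off : ∀ j ω x, x ∉ block j → move j ω x = ω x
  loc : ∀ j ω ω', (∀ x ∈ block j, ω x = ω' x) → ∀ x ∈ block j, move j ω x = move j ω' x

variable {I J : Type*}

/-- The total rate of the moves which use a given bit, weighted by the sizes of their blocks, is
at most `N`. -/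
def Dynamics.BoundedBy [DecidableEq I] (D : Dynamics I J) (N : ℝ) : Prop :=
  ∀ (x : I) (F : Finset J), ∑ j ∈ F, (if x ∈ D.block j then D.rate j * (D.block j).card else 0) ≤ N

/-- The generator `L f (ω) = ∑_j rate j (f(move j ω) - f(ω))`. -/
noncomputable def Dynamics.generator (D : Dynamics I J) (f : (I → Bool) → ℝ) (ω : I → Bool) : ℝ :=
  ∑' j, D.rate j * (f (D.move j ω) - f ω)

/-- `X` is a cadlag process which solves the martingale problem for the generator of `D`: for every
local function `f`, all times `s ≤ t` and every event `E` of the past up to time `s`,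
`𝔼[f(X_t) ; E] - 𝔼[f(X_s) ; E] = ∫_s^t 𝔼[(L f)(X_r) ; E] dr`. -/
structure IsSolution {Ω : Type*} [MeasurableSpace Ω] (D : Dynamics I J) (μ : Measure Ω)
    (X : ℝ → Ω → I → Bool) : Prop where
  measurable : ∀ t, 0 ≤ t → Measurable (X t)
  cadlag : ∀ᵐ w ∂μ, IsCadlag fun t => X t w
  martingale : ∀ f : (I → Bool) → ℝ, IsLocal f → ∀ s t : ℝ, 0 ≤ s → s ≤ t →
    ∀ E : Set Ω, MeasurableSet[past X s] E →
      ∫ w in E, f (X t w) ∂μ - ∫ w in E, f (X s w) ∂μ =
        ∫ r in s..t, ∫ w in E, D.generator f (X r w) ∂μ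

variable [DecidableEq I] {D : Dynamics I J} {N : ℝ}

lemma nonneg_of_bounded [Nonempty I] (hN : D.BoundedBy N) : 0 ≤ N := by
  have := hN (Classical.arbitrary I) ∅
  simpa using this

lemma touch_nonneg (D : Dynamics I J) (x : I) (j : J) :
    0 ≤ (if x ∈ D.block j then D.rate j else 0) := by
  split_ifs
  · exact D.rate_nonneg j
  · exact le_rfl

lemma touch_sum_le (hN : D.BoundedBy N) (x : I) (F : Finset J) :
    ∑ j ∈ F, (if x ∈ D.block j then D.rate j else 0) ≤ N := by
  refine le_trans (Finset.sum_le_sum fun j _ => ?_) (hN x F)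
  by_cases h : x ∈ D.block j
  · simp only [h, if_true]
    have h1 : (1 : ℝ) ≤ (D.block j).card := by exact_mod_cast Finset.card_pos.2 ⟨x, h⟩
    have := mul_le_mul_of_nonneg_left h1 (D.rate_nonneg j)
    linarith
  · simp [h]

lemma summable_touch (hN : D.BoundedBy N) (x : I) :
    Summable fun j => if x ∈ D.block j then D.rate j else 0 :=
  summable_of_sum_le (touch_nonneg D x) (touch_sum_le hN x)

lemma summable_touchs (hN : D.BoundedBy N) (Λ : Finset I) :
    Summable fun j => ∑ x ∈ Λ, if x ∈ D.block j then D.rate j else 0 :=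
  summable_sum fun x _ => summable_touch hN x

lemma tsum_touchs_le (hN : D.BoundedBy N) (Λ : Finset I) :
    ∑' j, ∑ x ∈ Λ, (if x ∈ D.block j then D.rate j else 0) ≤ Λ.card * N := by
  rw [Summable.tsum_finsetSum fun x _ => summable_touch hN x]
  calc ∑ x ∈ Λ, ∑' j, (if x ∈ D.block j then D.rate j else 0) ≤ ∑ _x ∈ Λ, N :=
        Finset.sum_le_sum fun x _ => Real.tsum_le_of_sum_le (touch_nonneg D x) (touch_sum_le hN x)
    _ = Λ.card * N := by rw [Finset.sum_const, nsmul_eq_mul]

omit [DecidableEq I] in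
lemma move_eq_of_disj {β : Sort*} {Λ : Finset I} {f : (I → Bool) → β} (hf : DepOn Λ f) (j : J)
    (h : ∀ x ∈ Λ, x ∉ D.block j) (ω : I → Bool) : f (D.move j ω) = f ω :=
  hf _ _ fun x hx => D.off j ω x (h x hx)

lemma term_bound {Λ : Finset I} {f : (I → Bool) → ℝ} (hf : DepOn Λ f) {B : ℝ}
    (hB : ∀ ω, |f ω| ≤ B) (ω : I → Bool) (j : J) :
    |D.rate j * (f (D.move j ω) - f ω)| ≤
      2 * B * ∑ x ∈ Λ, if x ∈ D.block j then D.rate j else 0 := by
  have hB0 : 0 ≤ B := (abs_nonneg _).trans (hB ω)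
  by_cases h : ∀ x ∈ Λ, x ∉ D.block j
  · rw [move_eq_of_disj hf j h, sub_self, mul_zero, abs_zero]
    exact mul_nonneg (by linarith) (Finset.sum_nonneg fun x _ => touch_nonneg D x j)
  · push Not at h
    obtain ⟨x, hx, hxj⟩ := h
    have h1 : D.rate j ≤ ∑ x ∈ Λ, if x ∈ D.block j then D.rate j else 0 := by
      have := Finset.single_le_sum (f := fun x => if x ∈ D.block j then D.rate j else 0)
        (fun x _ => touch_nonneg D x j) hx
      simpa only [hxj, if_true] using this
    have h2 : |f (D.move j ω) - f ω| ≤ 2 * B := by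
      have h3 := hB (D.move j ω)
      have h4 := hB ω
      rw [abs_le] at *
      constructor <;> linarith [h3.1, h3.2, h4.1, h4.2]
    rw [abs_mul, abs_of_nonneg (D.rate_nonneg j)]
    calc D.rate j * |f (D.move j ω) - f ω| ≤ D.rate j * (2 * B) :=
          mul_le_mul_of_nonneg_left h2 (D.rate_nonneg j)
      _ = 2 * B * D.rate j := by ring
      _ ≤ _ := mul_le_mul_of_nonneg_left h1 (by linarith)

lemma summable_term (hN : D.BoundedBy N) {Λ : Finset I} {f : (I → Bool) → ℝ} (hf : DepOn Λ f)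
    (ω : I → Bool) : Summable fun j => D.rate j * (f (D.move j ω) - f ω) := by
  obtain ⟨B, _, hB⟩ := hf.bounded
  exact Summable.of_norm_bounded ((summable_touchs hN Λ).mul_left (2 * B)) fun j => by
    rw [Real.norm_eq_abs]; exact term_bound hf hB ω j

/-- the generator of a local function is bounded -/
lemma generator_le (hN : D.BoundedBy N) {Λ : Finset I} {f : (I → Bool) → ℝ} (hf : DepOn Λ f)
    {B : ℝ} (hB : ∀ ω, |f ω| ≤ B) (ω : I → Bool) :
    |D.generator f ω| ≤ 2 * B * (Λ.card * N) := by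
  have hB0 : 0 ≤ B := (abs_nonneg _).trans (hB ω)
  unfold Dynamics.generator
  rw [← Real.norm_eq_abs]
  refine (tsum_of_norm_bounded ((summable_touchs hN Λ).mul_left (2 * B)).hasSum fun j => by
    rw [Real.norm_eq_abs]; exact term_bound hf hB ω j).trans ?_
  rw [tsum_mul_left]
  exact mul_le_mul_of_nonneg_left (tsum_touchs_le hN Λ) (by linarith)

lemma measurable_move (D : Dynamics I J) (j : J) : Measurable (D.move j) := by
  apply measurable_pi_lambda
  intro x
  by_cases hx : x ∈ D.block j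
  · have : DepOn (D.block j) fun ω => D.move j ω x := fun ω ω' h => D.loc j ω ω' h x hx
    exact this.measurable
  · have : (fun ω => D.move j ω x) = fun ω : I → Bool => ω x := funext fun ω => D.off j ω x hx
    rw [this]
    exact measurable_pi_apply x

lemma measurable_generator [Countable J] (D : Dynamics I J) {Λ : Finset I}
    {f : (I → Bool) → ℝ} (hf : DepOn Λ f) : Measurable (D.generator f) := by
  unfold Dynamics.generator
  apply Measurable.tsum
  intro j
  exact ((hf.measurable.comp (measurable_move D j)).sub hf.measurable).const_mul _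

/-! ### restriction to finite volumes -/

/-- the block of a move as a subset of `Λ` -/
def rblock (D : Dynamics I J) (Λ : Finset I) (j : J) : Finset Λ := (D.block j).subtype (· ∈ Λ)

/-- a move in a finite volume -/
def rmove (D : Dynamics I J) (Λ : Finset I) (j : J) (a : Λ → Bool) : Λ → Bool :=
  res Λ (D.move j (ext Λ a))

lemma mem_rblock (D : Dynamics I J) (Λ : Finset I) (j : J) (x : Λ) :
    x ∈ rblock D Λ j ↔ x.1 ∈ D.block j := by
  simp [rblock]

lemma sum_rblock {Λ : Finset I} {j : J} (h : D.block j ⊆ Λ) (H : I → ℝ) :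
    ∑ y ∈ rblock D Λ j, H y = ∑ y ∈ D.block j, H y :=
  Finset.sum_subtype_of_mem H fun x hx => h hx

lemma card_rblock {Λ : Finset I} {j : J} (h : D.block j ⊆ Λ) :
    ((rblock D Λ j).card : ℝ) = (D.block j).card := by
  have := sum_rblock h (fun _ => (1 : ℝ))
  simpa using this

lemma res_move {Λ : Finset I} {j : J} (ω : I → Bool) (h : D.block j ⊆ Λ) :
    res Λ (D.move j ω) = rmove D Λ j (res Λ ω) := by
  funext x
  unfold rmove
  show D.move j ω x = D.move j (ext Λ (res Λ ω)) x
  by_cases hx : x.1 ∈ D.block j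
  · exact D.loc j _ _ (fun y hy => (ext_res_apply Λ ω (h hy)).symm) x hx
  · rw [D.off j _ _ hx, D.off j _ _ hx, ext_res_apply Λ ω x.2]

lemma rmove_off (Λ : Finset I) (j : J) (a : Λ → Bool) (x : Λ) (hx : x ∉ rblock D Λ j) :
    rmove D Λ j a x = a x := by
  unfold rmove
  show D.move j (ext Λ a) x = a x
  rw [D.off j _ _ (fun h => hx ((mem_rblock D Λ j x).2 h))]
  simp [ext]

lemma rmove_loc {Λ : Finset I} {j : J} (h : D.block j ⊆ Λ) (a a' : Λ → Bool)
    (haa : ∀ x ∈ rblock D Λ j, a x = a' x) (x : Λ) (hx : x ∈ rblock D Λ j) :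
    rmove D Λ j a x = rmove D Λ j a' x := by
  unfold rmove
  apply D.loc j _ _ _ x ((mem_rblock D Λ j x).1 hx)
  intro y hy
  have h1 := haa ⟨y, h hy⟩ ((mem_rblock D Λ j _).2 hy)
  simp only [ext, h hy, dif_pos]
  exact h1

lemma rmove_bijective {Λ : Finset I} {j : J} (h : D.block j ⊆ Λ) :
    Function.Bijective (rmove D Λ j) := by
  rw [← Finite.injective_iff_bijective]
  intro a a' haa
  have h1 : D.move j (ext Λ a) = D.move j (ext Λ a') := by
    funext x
    by_cases hx : x ∈ Λ
    · exact congrFun haa ⟨x, hx⟩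
    · rw [D.off j _ _ fun h' => hx (h h'), D.off j _ _ fun h' => hx (h h')]
      simp [ext, hx]
  have h2 := (D.move j).injective h1
  rw [← res_ext Λ a, ← res_ext Λ a', h2]

/-! ### the supersolution -/

/-- the interaction kernel -/
noncomputable def kern (D : Dynamics I J) (x y : I) : ℝ :=
  ∑' j, if x ∈ D.block j ∧ y ∈ D.block j then D.rate j else 0

lemma kern_term_nonneg (D : Dynamics I J) (x y : I) (j : J) :
    0 ≤ (if x ∈ D.block j ∧ y ∈ D.block j then D.rate j else 0) := by
  split_ifs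
  · exact D.rate_nonneg j
  · exact le_rfl

lemma summable_kern (hN : D.BoundedBy N) (x y : I) :
    Summable fun j => if x ∈ D.block j ∧ y ∈ D.block j then D.rate j else 0 := by
  refine Summable.of_nonneg_of_le (kern_term_nonneg D x y) (fun j => ?_) (summable_touch hN x)
  by_cases h1 : x ∈ D.block j
  · by_cases h2 : y ∈ D.block j
    · simp [h1, h2]
    · simp [h1, h2, D.rate_nonneg j]
  · simp [h1]

lemma kern_nonneg (D : Dynamics I J) (x y : I) : 0 ≤ kern D x y :=
  tsum_nonneg (kern_term_nonneg D x y)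

lemma kern_symm (D : Dynamics I J) (x y : I) : kern D x y = kern D y x := by
  unfold kern
  exact tsum_congr fun j => by simp only [and_comm]

lemma kern_sum_le (hN : D.BoundedBy N) (x : I) (V : Finset I) : ∑ y ∈ V, kern D x y ≤ N := by
  unfold kern
  rw [← Summable.tsum_finsetSum fun y _ => summable_kern hN x y]
  apply Real.tsum_le_of_sum_le
  · exact fun j => Finset.sum_nonneg fun y _ => kern_term_nonneg D x y j
  · intro F
    refine le_trans (Finset.sum_le_sum fun j _ => ?_) (hN x F)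
    by_cases h1 : x ∈ D.block j
    · simp only [h1, true_and, if_true]
      rw [← Finset.sum_filter, Finset.sum_const, nsmul_eq_mul, mul_comm]
      apply mul_le_mul_of_nonneg_left _ (D.rate_nonneg j)
      have : V.filter (· ∈ D.block j) ⊆ D.block j := fun y hy => (Finset.mem_filter.1 hy).2
      exact_mod_cast Finset.card_le_card this
    · simp [h1]

theorem exists_super (hN : D.BoundedBy N) (hN0 : 0 ≤ N) (Λ : Finset I) :
    ∃ H : I → ℝ, (∀ x, 0 ≤ H x) ∧ (∀ x ∈ Λ, 1 ≤ H x) ∧ Summable H ∧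
      ∀ x, ∀ F : Finset J, ∑ j ∈ F, (if x ∈ D.block j then D.rate j * ∑ y ∈ D.block j, H y else 0)
        ≤ (2 * N + 1) * H x := by
  obtain ⟨H, hH0, hH1, hHs, hHp⟩ := exists_H (kern D) (kern_nonneg D) (kern_symm D) hN0
    (fun x => ⟨summable_of_sum_le (kern_nonneg D x) (kern_sum_le hN x),
      Real.tsum_le_of_sum_le (kern_nonneg D x) (kern_sum_le hN x)⟩) Λ
  refine ⟨H, hH0, hH1, hHs, fun x F => ?_⟩
  set V : Finset I := F.biUnion D.block with hV
  refine le_trans ?_ (hHp x V)
  have h1 : ∀ j ∈ F, (if x ∈ D.block j then D.rate j * ∑ y ∈ D.block j, H y else 0)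
      = ∑ y ∈ V, (if x ∈ D.block j ∧ y ∈ D.block j then D.rate j else 0) * H y := by
    intro j hj
    have hsub : D.block j ⊆ V := Finset.subset_biUnion_of_mem D.block hj
    by_cases hx : x ∈ D.block j
    · simp only [hx, true_and, if_true]
      rw [Finset.mul_sum, ← Finset.sum_subset hsub]
      · exact Finset.sum_congr rfl fun y hy => by rw [if_pos hy]
      · intro y _ hy
        rw [if_neg hy, zero_mul]
    · simp [hx]
  rw [Finset.sum_congr rfl h1, Finset.sum_comm]
  apply Finset.sum_le_sum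
  intro y _
  rw [← Finset.sum_mul]
  apply mul_le_mul_of_nonneg_right _ (hH0 y)
  exact (summable_kern hN x y).sum_le_tsum F fun j _ => kern_term_nonneg D x y j

/-- the possible effect of a move -/
def rho (D : Dynamics I J) (H : I → ℝ) (j : J) : ℝ := D.rate j * ∑ x ∈ D.block j, H x

omit [DecidableEq I] in
lemma rho_nonneg (D : Dynamics I J) {H : I → ℝ} (hH : ∀ x, 0 ≤ H x) (j : J) : 0 ≤ rho D H j :=
  mul_nonneg (D.rate_nonneg j) (Finset.sum_nonneg fun x _ => hH x)

lemma summable_rho (hN : D.BoundedBy N) (hN0 : 0 ≤ N) {H : I → ℝ} (hH : ∀ x, 0 ≤ H x)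
    (hHs : Summable H) : Summable (rho D H) := by
  apply summable_of_sum_le (rho_nonneg D hH) (c := N * ∑' x, H x)
  intro F
  set V : Finset I := F.biUnion D.block with hV
  have h1 : ∀ j ∈ F, rho D H j = ∑ y ∈ V, (if y ∈ D.block j then D.rate j else 0) * H y := by
    intro j hj
    have hsub : D.block j ⊆ V := Finset.subset_biUnion_of_mem D.block hj
    unfold rho
    rw [Finset.mul_sum, ← Finset.sum_subset hsub]
    · exact Finset.sum_congr rfl fun y hy => by rw [if_pos hy]
    · intro y _ hy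
      rw [if_neg hy, zero_mul]
  rw [Finset.sum_congr rfl h1, Finset.sum_comm]
  calc ∑ y ∈ V, ∑ j ∈ F, (if y ∈ D.block j then D.rate j else 0) * H y ≤ ∑ y ∈ V, N * H y := by
        apply Finset.sum_le_sum
        intro y _
        rw [← Finset.sum_mul]
        exact mul_le_mul_of_nonneg_right (touch_sum_le hN y F) (hH y)
    _ = N * ∑ y ∈ V, H y := by rw [Finset.mul_sum]
    _ ≤ N * ∑' x, H x := mul_le_mul_of_nonneg_left (hHs.sum_le_tsum V fun x _ => hH x) hN0

/-- the generator in a finite volume -/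
noncomputable def fgen (D : Dynamics I J) (Λ : Finset I) (F : Finset J) (g : (Λ → Bool) → ℝ)
    (a : Λ → Bool) : ℝ :=
  gen (fun k : F => D.rate k) (fun k : F => rmove D Λ k) g a

theorem gen_split (hN : D.BoundedBy N) (hN0 : 0 ≤ N) {Λ : Finset I} {F : Finset J}
    (hF : ∀ j ∈ F, D.block j ⊆ Λ) {H : I → ℝ} (hH : ∀ x, 0 ≤ H x) (hHs : Summable H)
    {κ : ℝ} (hκ : 0 ≤ κ) {g : (Λ → Bool) → ℝ}
    (hg : ∀ (x : Λ) a, |g (flipAt x a) - g a| ≤ κ * H x) (ω : I → Bool) :
    |D.generator (fun ω => g (res Λ ω)) ω - fgen D Λ F g (res Λ ω)| ≤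
      κ * ∑' j : {j // j ∉ F}, rho D H j := by
  have hs := summable_term hN (depOn_comp_res Λ g) ω
  unfold Dynamics.generator
  rw [← hs.sum_add_tsum_subtype_compl F]
  have h1 : ∑ j ∈ F, D.rate j * (g (res Λ (D.move j ω)) - g (res Λ ω)) =
      fgen D Λ F g (res Λ ω) := by
    unfold fgen gen
    rw [← Finset.sum_coe_sort F]
    exact Finset.sum_congr rfl fun j _ => by rw [res_move ω (hF j j.2)]
  rw [h1, add_sub_cancel_left, ← Real.norm_eq_abs]
  have hr := (summable_rho hN hN0 hH hHs).subtype {j | j ∉ F}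
  rw [← tsum_mul_left]
  apply tsum_of_norm_bounded (hr.mul_left κ).hasSum
  rintro ⟨j, hj⟩
  rw [Real.norm_eq_abs]
  simp only [Function.comp_apply]
  rw [abs_mul, abs_of_nonneg (D.rate_nonneg j)]
  have h2 := path_le (g := g) (w := fun x => κ * H x) hg (rblock D Λ j) (res Λ (D.move j ω))
    (res Λ ω) (by
      intro x hx
      exact D.off j ω x fun h => hx ((mem_rblock D Λ j x).2 h))
  have h3 : ∑ x ∈ rblock D Λ j, κ * H x ≤ κ * ∑ x ∈ D.block j, H x := by
    rw [← Finset.mul_sum]
    apply mul_le_mul_of_nonneg_left _ hκ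
    unfold rblock
    rw [← Finset.sum_subtype_map_embedding (s := (D.block j).subtype (· ∈ Λ)) (f := fun x => H x)
      (fun x _ => rfl)]
    apply Finset.sum_le_sum_of_subset_of_nonneg
    · intro x hx
      simp only [Finset.subtype_map, Finset.mem_filter] at hx
      exact hx.1
    · intro x _ _
      exact hH x
  calc D.rate j * |g (res Λ (D.move j ω)) - g (res Λ ω)|
      ≤ D.rate j * (κ * ∑ x ∈ D.block j, H x) :=
        mul_le_mul_of_nonneg_left (h2.trans h3) (D.rate_nonneg j)
    _ = _ := by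
      unfold rho
      ring

omit [DecidableEq I] in
/-- finite sets of moves with a small remainder -/
lemma exists_moves (D : Dynamics I J) (H : I → ℝ) (F₀ : Finset J) {δ : ℝ} (hδ : 0 < δ) :
    ∃ F : Finset J, F₀ ⊆ F ∧ ∑' j : {j // j ∉ F}, rho D H j ≤ δ := by
  have h1 := (tendsto_order.1 (tendsto_tsum_compl_atTop_zero (rho D H))).2 δ hδ
  obtain ⟨F, hF1, hF2⟩ := (h1.and (eventually_ge_atTop F₀)).exists
  exact ⟨F, hF2, hF1.le⟩

/-- the remainder decreases -/
lemma remainder_mono (hN : D.BoundedBy N) (hN0 : 0 ≤ N) {H : I → ℝ} (hH : ∀ x, 0 ≤ H x)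
    (hHs : Summable H) {F F' : Finset J} (h : F ⊆ F') :
    ∑' j : {j // j ∉ F'}, rho D H j ≤ ∑' j : {j // j ∉ F}, rho D H j := by
  have hr := summable_rho hN hN0 hH hHs
  have h1 := hr.sum_add_tsum_subtype_compl F
  have h2 := hr.sum_add_tsum_subtype_compl F'
  have h3 : ∑ j ∈ F, rho D H j ≤ ∑ j ∈ F', rho D H j :=
    Finset.sum_le_sum_of_subset_of_nonneg h fun j _ _ => rho_nonneg D hH j
  linarith

/-- an equilibrium potential in a finite volume and its gradient -/
theorem potential_grad (hN : D.BoundedBy N) (hN0 : 0 ≤ N) {Λ₀ Λ : Finset I}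
    {F : Finset J} (hF : ∀ j ∈ F, D.block j ⊆ Λ) {C : (I → Bool) → Prop} (hC : DepOn Λ₀ C)
    {H : I → ℝ} (hH0 : ∀ x, 0 ≤ H x) (hH1 : ∀ x ∈ Λ₀, 1 ≤ H x)
    (hHs : ∀ x, ∀ F : Finset J, ∑ j ∈ F,
      (if x ∈ D.block j then D.rate j * ∑ y ∈ D.block j, H y else 0) ≤ (2 * N + 1) * H x)
    {g : (Λ → Bool) → ℝ}
    (hg : IsPotential (fun k : F => D.rate k) (fun k : F => rmove D Λ k) (2 * N + 1)
      (fun a => C (ext Λ a)) g) (x : Λ) (a : Λ → Bool) :
    |g (flipAt x a) - g a| ≤ H x := by
  have e1 : ∀ x : Λ, ∑ k : F, (if x ∈ rblock D Λ k then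
      D.rate k * ∑ y ∈ rblock D Λ k, H y else 0) ≤ (2 * N + 1) * H x := by
    intro x
    refine le_trans (le_of_eq ?_) (hHs x F)
    rw [← Finset.sum_coe_sort F]
    apply Finset.sum_congr rfl
    intro k _
    rw [sum_rblock (hF k k.2)]
    exact if_congr (mem_rblock D Λ k x) rfl rfl
  have e2 : ∀ x : Λ, ¬ (x.1 ∈ Λ₀) → ∀ a, C (ext Λ (flipAt x a)) ↔ C (ext Λ a) := by
    intro x hx a
    have : C (ext Λ (flipAt x a)) = C (ext Λ a) := by
      apply hC
      intro y hy
      have hyx : y ≠ x.1 := fun h => hx (h ▸ hy)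
      simp only [ext]
      split_ifs with h
      · unfold flipAt
        rw [Function.update_of_ne (fun h' => hyx (congrArg Subtype.val h'))]
      · rfl
    rw [this]
  have e3 : ∀ x : Λ, ∑ k : F, (if x ∈ rblock D Λ k then
      D.rate k * (rblock D Λ k).card else 0) ≤ N := by
    intro x
    refine le_trans (le_of_eq ?_) (hN x F)
    rw [← Finset.sum_coe_sort F]
    apply Finset.sum_congr rfl
    intro k _
    rw [card_rblock (hF k k.2)]
    exact if_congr (mem_rblock D Λ k x) rfl rfl
  have e4 : ∀ (k : F) (a : Λ → Bool) (x : Λ), x ∉ rblock D Λ k → rmove D Λ k a x = a x :=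
    fun k a x hx => rmove_off (D := D) Λ k.1 a x hx
  have e5 : ∀ (k : F) (a a' : Λ → Bool), (∀ x ∈ rblock D Λ k, a x = a' x) →
      ∀ x ∈ rblock D Λ k, rmove D Λ k a x = rmove D Λ k a' x :=
    fun k a a' h x hx => rmove_loc (D := D) (hF k.1 k.2) a a' h x hx
  have e6 : N < 2 * N + 1 := by linarith
  refine grad_le' (V := Λ) (K := F) (c := fun k : F => D.rate k) (τ := fun k : F => rmove D Λ k)
    (b := fun k : F => rblock D Λ k) ?_ e4 e5 hg (fun x => x.1 ∈ Λ₀) e2 e6 e3
    (fun x => H x) ?_ ?_ e1 x a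
  · exact fun k => D.rate_nonneg k
  · exact fun x => hH0 x
  · exact fun x hx => hH1 x hx

end Pool.Agent.KS6_99.EX
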