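import Mathlib
import Pool.Graph.R_seed8.Results.MP_20d613_pr.ExclusionVsOrdinary
import Pool.Agent.KS6_99.EX.Inf

set_option autoImplicit false

open MeasureTheory Filter Topology
open Pool.Agent.Results.MP_20d613_pr.ExclusionVsOrdinary

namespace Pool.Agent.KS6_99.EX

section Grad

open Finset

variable {V : Type*} [DecidableEq V] [Fintype V] {K : Type*} [Fintype K] {c : K → ℝ}
  {τ : K → (V → Bool) → (V → Bool)} {b : K → Finset V}

/-- one step of the evolution of a gradient bound -/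
lemma grad_step (hc : ∀ k, 0 ≤ c k)
    (hoff : ∀ k a x, x ∉ b k → τ k a x = a x)
    (hloc : ∀ k a a', (∀ x ∈ b k, a x = a' x) → ∀ x ∈ b k, τ k a x = τ k a' x)
    {g : (V → Bool) → ℝ} {w : V → ℝ} (hg : ∀ x a, |g (flipAt x a) - g a| ≤ w x)
    {lam : ℝ} (hws : ∀ x, ∑ k, (if x ∈ b k then c k * ∑ y ∈ b k, w y else 0) ≤ lam * w x)
    {h : ℝ} (hh : 0 ≤ h) (hR : h * ∑ k, c k ≤ 1) (x : V) (a : V → Bool) :
    |(g (flipAt x a) + h * gen c τ g (flipAt x a)) - (g a + h * gen c τ g a)| ≤
      (1 + h * lam) * w x := by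
  have hwx : 0 ≤ w x := (abs_nonneg _).trans (hg x a)
  set D : ℝ := g (flipAt x a) - g a with hD
  have h1 : (g (flipAt x a) + h * gen c τ g (flipAt x a)) - (g a + h * gen c τ g a)
      = (1 - h * ∑ k, c k) * D + h * ∑ k, c k * (g (τ k (flipAt x a)) - g (τ k a)) := by
    have h5 : gen c τ g (flipAt x a) - gen c τ g a
        = ∑ k, (c k * (g (τ k (flipAt x a)) - g (τ k a)) - c k * D) := by
      unfold gen
      rw [← Finset.sum_sub_distrib]
      apply Finset.sum_congr rfl
      intro k _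
      rw [hD]; ring
    rw [Finset.sum_sub_distrib, ← Finset.sum_mul] at h5
    have h6 : (g (flipAt x a) + h * gen c τ g (flipAt x a)) - (g a + h * gen c τ g a)
        = D + h * (gen c τ g (flipAt x a) - gen c τ g a) := by rw [hD]; ring
    rw [h6, h5]; ring
  have h2 : |∑ k, c k * (g (τ k (flipAt x a)) - g (τ k a))| ≤
      ∑ k, (c k * w x + (if x ∈ b k then c k * ∑ y ∈ b k, w y else 0)) := by
    refine (Finset.abs_sum_le_sum_abs _ _).trans ?_
    apply Finset.sum_le_sum
    intro k _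
    rw [abs_mul, abs_of_nonneg (hc k)]
    by_cases hy : x ∈ b k
    · simp only [hy, if_true]
      have e1 : |g (τ k (flipAt x a)) - g (τ k a)| ≤ ∑ z ∈ b k, w z := by
        apply path_le hg
        intro z hz
        rw [hoff k _ z hz, hoff k _ z hz]
        unfold flipAt
        rw [Function.update_of_ne]
        intro h
        exact hz (h ▸ hy)
      have e2 := mul_le_mul_of_nonneg_left e1 (hc k)
      have e3 : 0 ≤ c k * w x := mul_nonneg (hc k) hwx
      linarith
    · simp only [hy, if_false, add_zero]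
      apply mul_le_mul_of_nonneg_left _ (hc k)
      have e2 : τ k (flipAt x a) = flipAt x (τ k a) := by
        funext z
        by_cases hz : z ∈ b k
        · have hzy : z ≠ x := fun h => hy (h ▸ hz)
          rw [hloc k (flipAt x a) a (fun y hx => by
            unfold flipAt
            rw [Function.update_of_ne (fun h => hy (by rw [← h]; exact hx))]) z hz]
          conv_rhs => unfold flipAt
          rw [Function.update_of_ne hzy]
        · rw [hoff k _ z hz]
          unfold flipAt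
          by_cases hzy : z = x
          · subst hzy
            rw [Function.update_self, Function.update_self, hoff k _ z hz]
          · rw [Function.update_of_ne hzy, Function.update_of_ne hzy, hoff k _ z hz]
      rw [e2]
      exact hg x (τ k a)
  rw [Finset.sum_add_distrib, ← Finset.sum_mul] at h2
  have h3 := hws x
  have h4 : |D| ≤ w x := hg x a
  have h5 : |(1 - h * ∑ k, c k) * D| ≤ (1 - h * ∑ k, c k) * w x := by
    rw [abs_mul, abs_of_nonneg (by linarith)]
    exact mul_le_mul_of_nonneg_left h4 (by linarith)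
  have h6 : |h * ∑ k, c k * (g (τ k (flipAt x a)) - g (τ k a))| ≤
      h * ((∑ k, c k) * w x + lam * w x) := by
    rw [abs_mul, abs_of_nonneg hh]
    exact mul_le_mul_of_nonneg_left (by linarith) hh
  rw [h1]
  have h7 := abs_add_le ((1 - h * ∑ k, c k) * D)
    (h * ∑ k, c k * (g (τ k (flipAt x a)) - g (τ k a)))
  have h8 : (1 - h * ∑ k, c k) * w x + h * ((∑ k, c k) * w x + lam * w x) =
      (1 + h * lam) * w x := by ring
  linarith

/-- one step of the evolution preserves bounds -/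
lemma step_mem (hc : ∀ k, 0 ≤ c k) {g : (V → Bool) → ℝ} (hg0 : ∀ a, 0 ≤ g a) (hg1 : ∀ a, g a ≤ 1)
    {h : ℝ} (hh : 0 ≤ h) (hR : h * ∑ k, c k ≤ 1) (a : V → Bool) :
    0 ≤ g a + h * gen c τ g a ∧ g a + h * gen c τ g a ≤ 1 := by
  have h1 : gen c τ g a = ∑ k, c k * g (τ k a) - (∑ k, c k) * g a := by
    unfold gen
    rw [Finset.sum_mul, ← Finset.sum_sub_distrib]
    exact Finset.sum_congr rfl fun k _ => by ring
  have h2 : 0 ≤ ∑ k, c k * g (τ k a) := Finset.sum_nonneg fun k _ => mul_nonneg (hc k) (hg0 _)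
  have h3 : ∑ k, c k * g (τ k a) ≤ ∑ k, c k := Finset.sum_le_sum fun k _ => by
    have := mul_le_mul_of_nonneg_left (hg1 (τ k a)) (hc k)
    linarith
  have h4 := hg0 a
  have h5 := hg1 a
  rw [h1]
  have e1 := mul_le_mul_of_nonneg_left h3 hh
  have e2 := mul_nonneg hh h2
  have e3 := mul_le_mul_of_nonneg_left h5 (by linarith : 0 ≤ 1 - h * ∑ k, c k)
  have e4 := mul_nonneg (by linarith : 0 ≤ 1 - h * ∑ k, c k) h4
  constructor <;> nlinarith

end Grad

section

variable {I J : Type*} [DecidableEq I] {D : Dynamics I J} {N : ℝ}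
  {Ω : Type*} [MeasurableSpace Ω] {μ : Measure Ω} [IsFiniteMeasure μ] {X : ℝ → Ω → I → Bool}

omit [DecidableEq I] [MeasurableSpace Ω] in
lemma past_mono (X : ℝ → Ω → I → Bool) {s t : ℝ} (h : s ≤ t) : past X s ≤ past X t :=
  biSup_mono fun _ hr => ⟨hr.1, hr.2.trans h⟩

omit [DecidableEq I] in
lemma integrable_comp' (hm : ∀ t, 0 ≤ t → Measurable (X t)) {f : (I → Bool) → ℝ}
    (hf : Measurable f) {K : ℝ} (hK : ∀ ω, |f ω| ≤ K) {t : ℝ} (ht : 0 ≤ t) :
    Integrable (fun w => f (X t w)) μ :=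
  Integrable.of_bound (hf.comp (hm t ht)).aestronglyMeasurable K
    (Filter.Eventually.of_forall fun w => by rw [Real.norm_eq_abs]; exact hK _)

omit [DecidableEq I] in
lemma abs_setIntegral_le (hμ : μ.real Set.univ ≤ 1) {f : Ω → ℝ} {K : ℝ} (hK0 : 0 ≤ K)
    (hK : ∀ w, |f w| ≤ K) (E : Set Ω) : |∫ w in E, f w ∂μ| ≤ K := by
  rw [← Real.norm_eq_abs]
  have h2 := norm_setIntegral_le_of_norm_le_const (μ := μ) (s := E) (C := K)
    (f := f) (measure_lt_top _ _) (fun w _ => by rw [Real.norm_eq_abs]; exact hK _)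
  refine h2.trans ?_
  have h3 : μ.real E ≤ 1 := (measureReal_mono (Set.subset_univ E) (measure_ne_top _ _)).trans hμ
  have h4 : 0 ≤ μ.real E := measureReal_nonneg
  nlinarith

lemma incr_le' (hμ : μ.real Set.univ ≤ 1) (hX : IsSolution D μ X) {Λ : Finset I}
    {f : (I → Bool) → ℝ} (hf : DepOn Λ f) {K : ℝ} (hK : ∀ ω, |D.generator f ω| ≤ K)
    {s t : ℝ} (h0 : 0 ≤ s) (hst : s ≤ t) {E : Set Ω} (hE : MeasurableSet[past X s] E) :
    |∫ w in E, f (X t w) ∂μ - ∫ w in E, f (X s w) ∂μ| ≤ K * (t - s) := by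
  have hK0 : 0 ≤ K := (abs_nonneg _).trans (hK (fun _ => false))
  rw [hX.martingale f ⟨Λ, hf⟩ s t h0 hst E hE, ← Real.norm_eq_abs]
  have h1 := intervalIntegral.norm_integral_le_of_norm_le_const (a := s) (b := t) (C := K)
    (f := fun r => ∫ w in E, D.generator f (X r w) ∂μ) (fun r _ => by
      rw [Real.norm_eq_abs]
      exact abs_setIntegral_le hμ hK0 (fun w => hK _) E)
  rwa [abs_of_nonneg (by linarith)] at h1

/-- uniform approximation of the generator by local functions -/
lemma gen_approx (hN : D.BoundedBy N) {Λ : Finset I} {f : (I → Bool) → ℝ} (hf : DepOn Λ f)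
    {ε : ℝ} (hε : 0 < ε) : ∃ (Λ' : Finset I) (v : (I → Bool) → ℝ), DepOn Λ' v ∧
      ∀ ω, |D.generator f ω - v ω| ≤ ε := by
  obtain ⟨B, hB0, hB⟩ := hf.bounded
  set T : J → ℝ := fun j => 2 * B * ∑ x ∈ Λ, if x ∈ D.block j then D.rate j else 0 with hT
  have hTs : Summable T := (summable_touchs hN Λ).mul_left (2 * B)
  obtain ⟨F, hF⟩ := ((tendsto_order.1 (tendsto_tsum_compl_atTop_zero T)).2 ε hε).exists
  refine ⟨Λ ∪ F.biUnion D.block, fun ω => ∑ j ∈ F, D.rate j * (f (D.move j ω) - f ω), ?_, ?_⟩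
  · intro ω ω' h
    apply Finset.sum_congr rfl
    intro j hj
    have h1 : f ω = f ω' := hf _ _ fun x hx => h x (Finset.mem_union_left _ hx)
    have h2 : f (D.move j ω) = f (D.move j ω') := by
      apply hf
      intro x hx
      by_cases hxj : x ∈ D.block j
      · exact D.loc j ω ω' (fun y hy => h y (Finset.mem_union_right _
          (Finset.mem_biUnion.2 ⟨j, hj, hy⟩))) x hxj
      · rw [D.off j _ _ hxj, D.off j _ _ hxj]
        exact h x (Finset.mem_union_left _ hx)
    rw [h1, h2]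
  · intro ω
    have hs := summable_term hN hf ω
    unfold Dynamics.generator
    rw [← hs.sum_add_tsum_subtype_compl F, add_sub_cancel_left, ← Real.norm_eq_abs]
    refine (tsum_of_norm_bounded (hTs.subtype {j | j ∉ F}).hasSum fun j => ?_).trans hF.le
    rw [Real.norm_eq_abs]
    exact term_bound hf hB ω j.1

lemma continuousOn_phi [Countable J] (hN : D.BoundedBy N) (hμ : μ.real Set.univ ≤ 1)
    (hX : IsSolution D μ X) {Λ : Finset I} {f : (I → Bool) → ℝ} (hf : DepOn Λ f) {s : ℝ}
    (h0 : 0 ≤ s) {E : Set Ω} (hE : MeasurableSet[past X s] E) :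
    ContinuousOn (fun r => ∫ w in E, D.generator f (X r w) ∂μ) (Set.Ici s) := by
  obtain ⟨B, hB0, hB⟩ := hf.bounded
  have hGI : ∀ r, 0 ≤ r → Integrable (fun w => D.generator f (X r w)) μ := fun r hr =>
    integrable_comp' hX.measurable (measurable_generator D hf) (generator_le hN hf hB) hr
  rw [Metric.continuousOn_iff]
  intro r hr ε hε
  obtain ⟨Λ', v, hv, hvε⟩ := gen_approx hN hf (show 0 < ε / 4 by positivity)
  obtain ⟨Bv, hBv0, hBv⟩ := hv.bounded
  have hvI : ∀ r, 0 ≤ r → Integrable (fun w => v (X r w)) μ := fun r hr =>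
    integrable_comp' hX.measurable hv.measurable hBv hr
  set K : ℝ := |2 * Bv * (Λ'.card * N)| with hK
  have hKb : ∀ ω, |D.generator v ω| ≤ K := fun ω => (generator_le hN hv hBv ω).trans (le_abs_self _)
  have hK0 : 0 ≤ K := abs_nonneg _
  refine ⟨ε / (4 * (K + 1)), by positivity, fun r' hr' hd => ?_⟩
  have hr0 : 0 ≤ r := h0.trans hr
  have hr0' : 0 ≤ r' := h0.trans hr'
  have key : ∀ q, 0 ≤ q → |∫ w in E, D.generator f (X q w) ∂μ - ∫ w in E, v (X q w) ∂μ| ≤ ε / 4 := by
    intro q hq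
    rw [← integral_sub (hGI q hq).integrableOn (hvI q hq).integrableOn]
    exact abs_setIntegral_le hμ (by positivity) (fun w => hvε _) E
  have hinc : |∫ w in E, v (X r' w) ∂μ - ∫ w in E, v (X r w) ∂μ| ≤ K * |r' - r| := by
    rcases le_total r r' with h | h
    · rw [abs_of_nonneg (a := r' - r) (by linarith)]
      exact incr_le' hμ hX hv hKb hr0 h (past_mono X hr _ hE)
    · rw [abs_sub_comm, abs_sub_comm r' r, abs_of_nonneg (a := r - r') (by linarith)]
      exact incr_le' hμ hX hv hKb hr0' h (past_mono X hr' _ hE)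
  have h1 : K * |r' - r| < ε / 4 := by
    rw [Real.dist_eq] at hd
    rw [lt_div_iff₀ (by positivity)] at hd
    have : 0 ≤ |r' - r| := abs_nonneg _
    nlinarith
  have k1 := key r hr0
  have k2 := key r' hr0'
  rw [Real.dist_eq]
  rw [abs_lt]
  rw [abs_le] at k1 k2 hinc
  constructor <;> linarith [k1.1, k1.2, k2.1, k2.2, hinc.1, hinc.2]

/-- expansion of one time step -/
theorem step_expansion [Countable J] (hN : D.BoundedBy N) (hμ : μ.real Set.univ ≤ 1)
    (hX : IsSolution D μ X) {Λ : Finset I} {g v : (Λ → Bool) → ℝ} {δ : ℝ}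
    (hgen : ∀ ω, |D.generator (fun ω => g (res Λ ω)) ω - v (res Λ ω)| ≤ δ)
    {K : ℝ} (hK : ∀ ω, |D.generator (fun ω => v (res Λ ω)) ω| ≤ K)
    {s h : ℝ} (h0 : 0 ≤ s) (hh : 0 ≤ h) {E : Set Ω} (hE : MeasurableSet[past X s] E) :
    |∫ w in E, g (res Λ (X (s + h) w)) ∂μ - ∫ w in E, g (res Λ (X s w)) ∂μ
      - h * ∫ w in E, v (res Λ (X s w)) ∂μ| ≤ δ * h + K * h ^ 2 := by
  have hK0 : 0 ≤ K := (abs_nonneg _).trans (hK (fun _ => false))
  have hδ0 : 0 ≤ δ := (abs_nonneg _).trans (hgen (fun _ => false))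
  have hgD : DepOn Λ fun ω => g (res Λ ω) := depOn_comp_res Λ g
  have hvD : DepOn Λ fun ω => v (res Λ ω) := depOn_comp_res Λ v
  obtain ⟨Bg, _, hBg⟩ := hgD.bounded
  obtain ⟨Bv, _, hBv⟩ := hvD.bounded
  have hGI : ∀ r, 0 ≤ r → Integrable (fun w => D.generator (fun ω => g (res Λ ω)) (X r w)) μ :=
    fun r hr => integrable_comp' hX.measurable (measurable_generator D hgD)
      (generator_le hN hgD hBg) hr
  have hvI : ∀ r, 0 ≤ r → Integrable (fun w => v (res Λ (X r w))) μ := fun r hr =>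
    integrable_comp' (f := fun ω => v (res Λ ω)) hX.measurable hvD.measurable hBv hr
  rw [hX.martingale _ ⟨Λ, hgD⟩ s (s + h) h0 (by linarith) E hE]
  have hcont := continuousOn_phi hN hμ hX hgD h0 hE
  have hint : IntervalIntegrable (fun r => ∫ w in E, D.generator (fun ω => g (res Λ ω)) (X r w) ∂μ)
      volume s (s + h) := by
    apply ContinuousOn.intervalIntegrable
    apply hcont.mono
    rw [Set.uIcc_of_le (by linarith)]
    exact fun r hr => hr.1
  have e1 : h * ∫ w in E, v (res Λ (X s w)) ∂μ =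
      ∫ _ in s..(s + h), ∫ w in E, v (res Λ (X s w)) ∂μ := by
    rw [intervalIntegral.integral_const, smul_eq_mul]; ring
  rw [e1, ← intervalIntegral.integral_sub hint intervalIntegrable_const, ← Real.norm_eq_abs]
  have h1 := intervalIntegral.norm_integral_le_of_norm_le_const (a := s) (b := s + h)
    (C := δ + K * h)
    (f := fun r => ∫ w in E, D.generator (fun ω => g (res Λ ω)) (X r w) ∂μ
      - ∫ w in E, v (res Λ (X s w)) ∂μ) (fun r hr => by
      rw [Set.uIoc_of_le (by linarith)] at hr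
      have hr0 : 0 ≤ r := h0.trans hr.1.le
      rw [Real.norm_eq_abs]
      have k1 : |∫ w in E, D.generator (fun ω => g (res Λ ω)) (X r w) ∂μ
          - ∫ w in E, v (res Λ (X r w)) ∂μ| ≤ δ := by
        rw [← integral_sub (hGI r hr0).integrableOn (hvI r hr0).integrableOn]
        exact abs_setIntegral_le hμ hδ0 (fun w => hgen _) E
      have k2 := incr_le' hμ hX hvD hK h0 hr.1.le hE
      have k3 : K * (r - s) ≤ K * h := mul_le_mul_of_nonneg_left (by linarith [hr.2]) hK0
      rw [abs_le] at *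
      constructor <;> linarith [k1.1, k1.2, k2.1, k2.2])
  refine h1.trans (le_of_eq ?_)
  rw [add_sub_cancel_left, abs_of_nonneg hh]
  ring

end

end Pool.Agent.KS6_99.EX
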