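import Mathlib
import Pool.Graph.R_seed8.Results.MP_20d613_pr.ExclusionVsOrdinary
import Pool.Agent.KS6_99.EX.Step

set_option autoImplicit false

open MeasureTheory Filter Topology
open Pool.Agent.Results.MP_20d613_pr.ExclusionVsOrdinary

namespace Pool.Agent.KS6_99.EX

variable {I J : Type*} [DecidableEq I] {D : Dynamics I J} {N : ℝ}
  {Ω : Type*} [MeasurableSpace Ω] {μ : Measure Ω} [IsFiniteMeasure μ] {X : ℝ → Ω → I → Bool}

lemma measurableSet_visit' (hX : ∀ t, 0 ≤ t → Measurable (X t)) {Λ : Finset I}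
    {C : (I → Bool) → Prop} (hC : DepOn Λ C) {t : ℝ} (ht : 0 ≤ t) :
    MeasurableSet {w | C (X t w)} :=
  hX t ht (measurableSet_setOfPred.2 hC.measurable)

lemma measurableSet_nv (hX : ∀ t, 0 ≤ t → Measurable (X t)) {Λ : Finset I}
    {C : (I → Bool) → Prop} (hC : DepOn Λ C) {h : ℝ} (hh : 0 ≤ h) (i : ℕ) :
    MeasurableSet (noVisit X C h i) := by
  have : noVisit X C h i = ⋂ j ∈ Set.Iio i, {w | C (X (j * h) w)}ᶜ := by
    ext w; simp [noVisit]
  rw [this]
  exact MeasurableSet.biInter (Set.to_countable _) fun j _ =>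
    (measurableSet_visit' hX hC (by positivity)).compl

/-- splitting off the first visit -/
lemma split_visit (hX : ∀ t, 0 ≤ t → Measurable (X t)) {Λ : Finset I}
    {C : (I → Bool) → Prop} (hC : DepOn Λ C) {g : (Λ → Bool) → ℝ} (hg0 : ∀ a, 0 ≤ g a)
    (hg1 : ∀ a, g a ≤ 1) (hgC : ∀ a, C (ext Λ a) → g a = 1) {h : ℝ} (hh : 0 ≤ h) (i : ℕ) :
    ∫ w in noVisit X C h (i + 1), g (res Λ (X (i * h) w)) ∂μ =
      ∫ w in noVisit X C h i, g (res Λ (X (i * h) w)) ∂μ -
        μ.real (noVisit X C h i ∩ {w | C (X (i * h) w)}) := by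
  have hgI : Integrable (fun w => g (res Λ (X (i * h) w))) μ :=
    integrable_comp' (f := fun ω => g (res Λ ω)) hX (depOn_comp_res Λ g).measurable (K := 1)
      (fun ω => by
        rw [abs_le]
        exact ⟨by have := hg0 (res Λ ω); linarith, hg1 _⟩) (by positivity)
  have hvis := measurableSet_visit' hX hC (by positivity : (0 : ℝ) ≤ i * h)
  have h2 := integral_inter_add_sdiff (μ := μ) (s := noVisit X C h i) hvis
    (f := fun w => g (res Λ (X (i * h) w))) hgI.integrableOn
  rw [noVisit_succ]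
  have h3 : μ.real (noVisit X C h i ∩ {w | C (X (i * h) w)}) =
      ∫ w in noVisit X C h i ∩ {w | C (X (i * h) w)}, g (res Λ (X (i * h) w)) ∂μ := by
    rw [setIntegral_congr_fun ((measurableSet_nv hX hC hh i).inter hvis) (g := fun _ => (1 : ℝ))
      (fun w hw => by
        simp only
        apply hgC
        have : C (X (i * h) w) := hw.2
        rwa [hC.factor] at this)]
    simp
  rw [h3]
  linarith

/-- the probability of a visit is bounded in terms of an equilibrium potential -/
theorem upper [Countable J] (hN : D.BoundedBy N) (hμ : μ.real Set.univ ≤ 1)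
    (hX : IsSolution D μ X) {Λ : Finset I} {C : (I → Bool) → Prop} (hC : DepOn Λ C)
    {lam : ℝ} (hlam : 0 < lam) {g v : (Λ → Bool) → ℝ} (hg0 : ∀ a, 0 ≤ g a)
    (hg1 : ∀ a, g a ≤ 1) (hgC : ∀ a, C (ext Λ a) → g a = 1) (hv : ∀ a, v a ≤ lam * g a)
    {δ : ℝ} (hδ : 0 ≤ δ)
    (hgen : ∀ ω, |D.generator (fun ω => g (res Λ ω)) ω - v (res Λ ω)| ≤ δ) (T : ℕ) :
    μ {w | ∃ t : ℝ, 0 ≤ t ∧ t ≤ T ∧ C (X t w)} ≤
      ENNReal.ofReal (Real.exp (lam * (T + 1)) *
        (∫ w, g (res Λ (X 0 w)) ∂μ + (T + 1) * δ)) := by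
  have hvD : DepOn Λ fun ω => v (res Λ ω) := depOn_comp_res Λ v
  obtain ⟨Bv, hBv0, hBv⟩ := hvD.bounded
  set K : ℝ := |2 * Bv * (Λ.card * N)| with hK
  have hK0 : 0 ≤ K := abs_nonneg _
  have hKb : ∀ ω, |D.generator (fun ω => v (res Λ ω)) ω| ≤ K := fun ω =>
    (generator_le hN hvD hBv ω).trans (le_abs_self _)
  have hgD : DepOn Λ fun ω => g (res Λ ω) := depOn_comp_res Λ g
  have hgI : ∀ r, 0 ≤ r → Integrable (fun w => g (res Λ (X r w))) μ := fun r hr =>
    integrable_comp' (f := fun ω => g (res Λ ω)) hX.measurable hgD.measurable (K := 1)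
      (fun ω => by
        rw [abs_le]
        exact ⟨by have := hg0 (res Λ ω); linarith, hg1 _⟩) hr
  have hvI : ∀ r, 0 ≤ r → Integrable (fun w => v (res Λ (X r w))) μ := fun r hr =>
    integrable_comp' (f := fun ω => v (res Λ ω)) hX.measurable hvD.measurable hBv hr
  set b : ℝ := ∫ w, g (res Λ (X 0 w)) ∂μ with hb
  have hgrid : ∀ m : ℕ, μ (gridHit X C T m) ≤
      ENNReal.ofReal (Real.exp (lam * (T + 1)) * (b + (T + 1) * (δ + K * (1 / 2) ^ m))) := by
    intro m
    set h : ℝ := (1 / 2) ^ m with hh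
    have hh0 : 0 < h := by positivity
    set M : ℕ := (T + 1) * 2 ^ m with hM
    have hMh : (M : ℝ) * h = T + 1 := by
      rw [hM, hh]; push_cast
      rw [mul_assoc, ← mul_pow]; norm_num
    set a : ℕ → ℝ := fun i => ∫ w in noVisit X C h i, g (res Λ (X (i * h) w)) ∂μ with ha
    set p : ℕ → ℝ := fun i => μ.real (noVisit X C h i ∩ {w | C (X (i * h) w)}) with hp
    have hrec : ∀ i, a (i + 1) ≤ (1 + lam * h) * (a i - p i) + (δ * h + K * h ^ 2) := by
      intro i
      have hi0 : (0 : ℝ) ≤ i * h := by positivity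
      have h1 := step_expansion hN hμ hX hgen hKb (s := i * h) (h := h) hi0 hh0.le
        (measurableSet_noVisit (X := X) hC hh0.le i)
      have e1 : ((i + 1 : ℕ) : ℝ) * h = i * h + h := by push_cast; ring
      have e2 : ∫ w in noVisit X C h (i + 1), g (res Λ (X (i * h) w)) ∂μ = a i - p i :=
        split_visit hX.measurable hC hg0 hg1 hgC hh0.le i
      have e3 : ∫ w in noVisit X C h (i + 1), v (res Λ (X (i * h) w)) ∂μ ≤
          lam * ∫ w in noVisit X C h (i + 1), g (res Λ (X (i * h) w)) ∂μ := by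
        rw [← integral_const_mul]
        exact setIntegral_mono (hvI _ hi0).integrableOn ((hgI _ hi0).const_mul lam).integrableOn
          fun w => hv _
      have e4 := mul_le_mul_of_nonneg_left e3 hh0.le
      simp only [ha] at e2 ⊢
      rw [e1]
      rw [e2] at e4 h1
      have := (abs_le.1 h1).2
      nlinarith
    have hsum := rec_upper (a := a) (p := p) (q := 1 + lam * h) (e := δ * h + K * h ^ 2)
      (by nlinarith) (by positivity) (fun i => measureReal_nonneg) hrec M
    have haN : 0 ≤ a M := integral_nonneg fun w => hg0 _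
    have ha0 : a 0 = b := by
      simp only [ha, hb]
      have : noVisit X C h 0 = Set.univ := by ext w; simp [noVisit]
      rw [this, setIntegral_univ]
      simp
    have hexp : (1 + lam * h) ^ M ≤ Real.exp (lam * (T + 1)) := by
      have h1 : 1 + lam * h ≤ Real.exp (lam * h) := by
        have := Real.add_one_le_exp (lam * h); linarith
      calc (1 + lam * h) ^ M ≤ (Real.exp (lam * h)) ^ M := pow_le_pow_left₀ (by positivity) h1 M
        _ = Real.exp (lam * (T + 1)) := by
            rw [← Real.exp_nat_mul, ← hMh]; ring_nf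
    have hb0 : 0 ≤ b := integral_nonneg fun w => hg0 _
    have hNe : (M : ℝ) * (δ * h + K * h ^ 2) = (T + 1) * (δ + K * h) := by
      rw [← hMh]; ring
    have hreal : μ.real (gridHit X C T m) ≤
        Real.exp (lam * (T + 1)) * (b + (T + 1) * (δ + K * h)) := by
      have hsub : gridHit X C T m ⊆
          ⋃ i ∈ Finset.range M, (noVisit X C h i ∩ {w | C (X (i * h) w)}) := by
        intro w hw
        obtain ⟨i, hi, hCi⟩ := hw
        have e0 : ∀ j : ℕ, (j : ℝ) / 2 ^ m = j * h := fun j => by
          rw [hh, one_div, inv_pow, div_eq_mul_inv]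
        rw [e0] at hCi
        classical
        have hex : ∃ j : ℕ, C (X (j * h) w) := ⟨i, hCi⟩
        have h1 := Nat.find_spec hex
        have h2 : Nat.find hex ≤ i := Nat.find_min' hex hCi
        simp only [Set.mem_iUnion, Finset.mem_range]
        exact ⟨Nat.find hex, by omega, fun j hj => Nat.find_min hex hj, h1⟩
      calc μ.real (gridHit X C T m) ≤ μ.real (⋃ i ∈ Finset.range M,
            (noVisit X C h i ∩ {w | C (X (i * h) w)})) := measureReal_mono hsub (measure_ne_top _ _)
        _ ≤ ∑ i ∈ Finset.range M, p i := measureReal_biUnion_finset_le _ _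
        _ ≤ (1 + lam * h) ^ M * (a 0 + M * (δ * h + K * h ^ 2)) := by linarith
        _ ≤ _ := by
            rw [ha0, hNe]
            apply mul_le_mul_of_nonneg_right hexp
            positivity
    have h3 : μ (gridHit X C T m) = ENNReal.ofReal (μ.real (gridHit X C T m)) := by
      rw [ofReal_measureReal (measure_ne_top _ _)]
    rw [h3]
    exact ENNReal.ofReal_le_ofReal hreal
  refine (measure_hit_le hX.cadlag hC T).trans ?_
  apply iSup_le
  intro m
  have hlim : Tendsto (fun m' : ℕ => ENNReal.ofReal (Real.exp (lam * (T + 1)) *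
      (b + (T + 1) * (δ + K * (1 / 2) ^ m')))) atTop
      (𝓝 (ENNReal.ofReal (Real.exp (lam * (T + 1)) * (b + (T + 1) * δ)))) := by
    apply ENNReal.tendsto_ofReal
    have h1 : Tendsto (fun m' : ℕ => (1 / 2 : ℝ) ^ m') atTop (𝓝 0) :=
      tendsto_pow_atTop_nhds_zero_of_lt_one (by norm_num) (by norm_num)
    have h2 : Tendsto (fun m' : ℕ => Real.exp (lam * (T + 1)) *
      (b + (T + 1) * (δ + K * (1 / 2) ^ m'))) atTop
      (𝓝 (Real.exp (lam * (T + 1)) * (b + (T + 1) * (δ + K * 0)))) :=
      ((((h1.const_mul K).const_add δ).const_mul _).const_add b).const_mul _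
    simpa using h2
  refine ge_of_tendsto hlim ?_
  filter_upwards [eventually_ge_atTop m] with m' hm'
  exact (measure_mono (gridHit_mono X C T hm')).trans (hgrid m')

/-- the probability of a visit is at least an equilibrium potential, up to a small error -/
theorem lower [Countable J] (hN : D.BoundedBy N) (hμ : μ.real Set.univ ≤ 1)
    (hX : IsSolution D μ X) {Λ : Finset I} {C : (I → Bool) → Prop} (hC : DepOn Λ C)
    {lam : ℝ} (hlam : 0 < lam) {u v : (Λ → Bool) → ℝ} (hu0 : ∀ a, 0 ≤ u a)
    (hu1 : ∀ a, u a ≤ 1) (huC : ∀ a, C (ext Λ a) → u a = 1)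
    (hv : ∀ a, ¬ C (ext Λ a) → lam * u a ≤ v a) {δ : ℝ} (hδ : 0 ≤ δ)
    (hgen : ∀ ω, |D.generator (fun ω => u (res Λ ω)) ω - v (res Λ ω)| ≤ δ) (R : ℕ) :
    ∫ w, u (res Λ (X 0 w)) ∂μ ≤
      μ.real (⋃ m, gridHit X C R m) + 1 / (1 + lam * (R + 1)) + (R + 1) * δ := by
  have hvD : DepOn Λ fun ω => v (res Λ ω) := depOn_comp_res Λ v
  obtain ⟨Bv, hBv0, hBv⟩ := hvD.bounded
  set K : ℝ := |2 * Bv * (Λ.card * N)| with hK
  have hK0 : 0 ≤ K := abs_nonneg _
  have hKb : ∀ ω, |D.generator (fun ω => v (res Λ ω)) ω| ≤ K := fun ω =>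
    (generator_le hN hvD hBv ω).trans (le_abs_self _)
  have huD : DepOn Λ fun ω => u (res Λ ω) := depOn_comp_res Λ u
  have huI : ∀ r, 0 ≤ r → Integrable (fun w => u (res Λ (X r w))) μ := fun r hr =>
    integrable_comp' (f := fun ω => u (res Λ ω)) hX.measurable huD.measurable (K := 1)
      (fun ω => by
        rw [abs_le]
        exact ⟨by have := hu0 (res Λ ω); linarith, hu1 _⟩) hr
  have hvI : ∀ r, 0 ≤ r → Integrable (fun w => v (res Λ (X r w))) μ := fun r hr =>
    integrable_comp' (f := fun ω => v (res Λ ω)) hX.measurable hvD.measurable hBv hr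
  set b : ℝ := ∫ w, u (res Λ (X 0 w)) ∂μ with hb
  have hgrid : ∀ m : ℕ, b ≤ μ.real (⋃ m, gridHit X C R m) + 1 / (1 + lam * (R + 1)) +
      (R + 1) * (δ + K * (1 / 2) ^ m) := by
    intro m
    set h : ℝ := (1 / 2) ^ m with hh
    have hh0 : 0 < h := by positivity
    set M : ℕ := (R + 1) * 2 ^ m with hM
    have hMh : (M : ℝ) * h = R + 1 := by
      rw [hM, hh]; push_cast
      rw [mul_assoc, ← mul_pow]; norm_num
    set a : ℕ → ℝ := fun i => ∫ w in noVisit X C h i, u (res Λ (X (i * h) w)) ∂μ with ha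
    set p : ℕ → ℝ := fun i => μ.real (noVisit X C h i ∩ {w | C (X (i * h) w)}) with hp
    have hrec : ∀ i, (1 + lam * h) * (a i - p i) - (δ * h + K * h ^ 2) ≤ a (i + 1) := by
      intro i
      have hi0 : (0 : ℝ) ≤ i * h := by positivity
      have h1 := step_expansion hN hμ hX hgen hKb (s := i * h) (h := h) hi0 hh0.le
        (measurableSet_noVisit (X := X) hC hh0.le i)
      have e1 : ((i + 1 : ℕ) : ℝ) * h = i * h + h := by push_cast; ring
      have e2 : ∫ w in noVisit X C h (i + 1), u (res Λ (X (i * h) w)) ∂μ = a i - p i :=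
        split_visit hX.measurable hC hu0 hu1 huC hh0.le i
      have e3 : lam * ∫ w in noVisit X C h (i + 1), u (res Λ (X (i * h) w)) ∂μ ≤
          ∫ w in noVisit X C h (i + 1), v (res Λ (X (i * h) w)) ∂μ := by
        rw [← integral_const_mul]
        apply setIntegral_mono_on ((huI _ hi0).const_mul lam).integrableOn
          (hvI _ hi0).integrableOn (measurableSet_nv hX.measurable hC hh0.le (i + 1))
        intro w hw
        apply hv
        have := hw i (by omega)
        rwa [hC.factor] at this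
      have e4 := mul_le_mul_of_nonneg_left e3 hh0.le
      simp only [ha] at e2 ⊢
      rw [e1]
      rw [e2] at e4 h1
      have := (abs_le.1 h1).1
      nlinarith
    have hsum := rec_lower (a := a) (p := p) (q := 1 + lam * h) (e := δ * h + K * h ^ 2)
      (by nlinarith) (by positivity) (fun i => measureReal_nonneg) (fun i => by
        simp only [ha]
        refine (le_abs_self _).trans (abs_setIntegral_le hμ zero_le_one (fun w => ?_) _)
        rw [abs_le]
        exact ⟨by have := hu0 (res Λ (X (i * h) w)); linarith, hu1 _⟩) hrec M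
    have ha0 : a 0 = b := by
      simp only [ha, hb]
      have : noVisit X C h 0 = Set.univ := by ext w; simp [noVisit]
      rw [this, setIntegral_univ]
      simp
    have hbern : (1 / (1 + lam * h)) ^ M ≤ 1 / (1 + lam * (R + 1)) := by
      rw [one_div_pow]
      apply one_div_le_one_div_of_le (by positivity)
      have h1 := one_add_mul_le_pow (a := lam * h) (by nlinarith) M
      calc 1 + lam * (R + 1) = 1 + M * (lam * h) := by rw [← hMh]; ring
        _ ≤ _ := h1
    have hNe : (M : ℝ) * (δ * h + K * h ^ 2) = (R + 1) * (δ + K * h) := by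
      rw [← hMh]; ring
    have hunion : ∑ i ∈ Finset.range M, p i ≤ μ.real (⋃ m, gridHit X C R m) := by
      have h1 : ∑ i ∈ Finset.range M, p i =
          μ.real (⋃ i ∈ Finset.range M, (noVisit X C h i ∩ {w | C (X (i * h) w)})) := by
        rw [measureReal_biUnion_finset]
        · intro i _ j _ hij
          rw [Function.onFun, Set.disjoint_left]
          rintro w ⟨h1, h2⟩ ⟨h3, h4⟩
          rcases lt_or_gt_of_ne hij with h | h
          · exact h3 i h h2
          · exact h1 j h h4
        · intro i _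
          exact (measurableSet_nv hX.measurable hC hh0.le i).inter
            (measurableSet_visit' hX.measurable hC (by positivity))
      rw [h1]
      apply measureReal_mono _ (measure_ne_top _ _)
      intro w hw
      simp only [Set.mem_iUnion, Finset.mem_range] at hw
      obtain ⟨i, hi, _, hCi⟩ := hw
      refine Set.mem_iUnion.2 ⟨m, i, hi, ?_⟩
      have e0 : (i : ℝ) / 2 ^ m = i * h := by
        rw [hh, one_div, inv_pow, div_eq_mul_inv]
      rw [e0]; exact hCi
    rw [ha0, hNe] at hsum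
    linarith
  have hlim : Tendsto (fun m' : ℕ => μ.real (⋃ m, gridHit X C R m) + 1 / (1 + lam * (R + 1)) +
      (R + 1) * (δ + K * (1 / 2) ^ m')) atTop
      (𝓝 (μ.real (⋃ m, gridHit X C R m) + 1 / (1 + lam * (R + 1)) + (R + 1) * (δ + K * 0))) := by
    have h1 : Tendsto (fun m' : ℕ => (1 / 2 : ℝ) ^ m') atTop (𝓝 0) :=
      tendsto_pow_atTop_nhds_zero_of_lt_one (by norm_num) (by norm_num)
    exact ((((h1.const_mul K).const_add δ).const_mul _).const_add _)
  rw [mul_zero, add_zero] at hlim
  exact ge_of_tendsto' hlim hgrid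

end Pool.Agent.KS6_99.EX
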