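import Mathlib
import Pool.Graph.R_seed8.Results.MP_20d613_pr.ExclusionVsOrdinary
import Pool.Agent.KS6_99.EX.Bounds

set_option autoImplicit false

open MeasureTheory Filter Topology
open Pool.Agent.Results.MP_20d613_pr.ExclusionVsOrdinary

namespace Pool.Agent.KS6_99.EX

variable {I J : Type*} [DecidableEq I] {D : Dynamics I J} {N : ℝ}
  {Ω : Type*} [MeasurableSpace Ω] {μ : Measure Ω} [IsFiniteMeasure μ] {X : ℝ → Ω → I → Bool}

/-- on cylinder events the law at time `t` is at most `K₀` times the law of fair coin flips -/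
def DomBy {Ω : Type*} [MeasurableSpace Ω] (μ : Measure Ω) (X : ℝ → Ω → I → Bool) (K₀ t : ℝ) :
    Prop :=
  ∀ (Λ : Finset I) (C : (I → Bool) → Prop), DepOn Λ C →
    μ.real {w | C (X t w)} ≤ K₀ * (fairCoins I).real {ω | C ω}

lemma dom_integral {K₀ t : ℝ} (h : DomBy μ X K₀ t) (hX : Measurable (X t))
    (Λ : Finset I) {f : (Λ → Bool) → ℝ} (hf : ∀ a, 0 ≤ f a) :
    ∫ w, f (res Λ (X t w)) ∂μ ≤ K₀ * ((1 / 2) ^ Λ.card * ∑ a, f a) := by
  have h1 := integral_comp_finite (μ := μ) ((measurable_res Λ).comp hX) f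
  simp only [Function.comp_apply] at h1
  rw [h1, ← mul_assoc, Finset.mul_sum]
  apply Finset.sum_le_sum
  intro a _
  apply mul_le_mul_of_nonneg_right _ (hf a)
  rw [← fairCoins_res Λ a]
  exact h Λ (fun ω => res Λ ω = a) (depOn_comp_res Λ fun b => b = a)

open Classical in
lemma fair_cyl {Λ : Finset I} {C : (I → Bool) → Prop} (hC : DepOn Λ C) :
    (fairCoins I).real {ω | C ω} = (1 / 2) ^ Λ.card * ∑ a, (if C (ext Λ a) then 1 else 0) := by
  have h1 := integral_comp_finite (μ := fairCoins I) (measurable_res Λ)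
    (fun a => if C (ext Λ a) then (1 : ℝ) else 0)
  have h2 : ∫ ω, (if C (ext Λ (res Λ ω)) then (1 : ℝ) else 0) ∂(fairCoins I) =
      (fairCoins I).real {ω | C ω} := by
    rw [← integral_indicator_one (measurableSet_setOfPred.2 hC.measurable)]
    congr 1
    funext ω
    rw [← hC.factor ω]
    simp [Set.indicator_apply]
  rw [← h2, h1, Finset.mul_sum]
  exact Finset.sum_congr rfl fun a _ => by rw [fairCoins_res Λ a]

/-- the evolution of a function in a finite volume -/
noncomputable def evol (D : Dynamics I J) (Λ : Finset I) (F : Finset J) (h : ℝ)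
    (f : (Λ → Bool) → ℝ) : ℕ → (Λ → Bool) → ℝ
  | 0 => f
  | i + 1 => fun a => evol D Λ F h f i a + h * fgen D Λ F (evol D Λ F h f i) a

lemma evol_mem {Λ : Finset I} {F : Finset J} {h : ℝ} (hh : 0 ≤ h)
    (hR : h * ∑ j ∈ F, D.rate j ≤ 1) {f : (Λ → Bool) → ℝ} (hf0 : ∀ a, 0 ≤ f a)
    (hf1 : ∀ a, f a ≤ 1) (i : ℕ) (a : Λ → Bool) :
    0 ≤ evol D Λ F h f i a ∧ evol D Λ F h f i a ≤ 1 := by
  induction i generalizing a with
  | zero => exact ⟨hf0 a, hf1 a⟩
  | succ i ih =>
    rw [← Finset.sum_coe_sort F] at hR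
    exact step_mem (c := fun k : F => D.rate k) (τ := fun k : F => rmove D Λ k)
      (fun k => D.rate_nonneg k) (fun a => (ih a).1) (fun a => (ih a).2) hh hR a

lemma evol_sum {Λ : Finset I} {F : Finset J} (hF : ∀ j ∈ F, D.block j ⊆ Λ) {h : ℝ}
    {f : (Λ → Bool) → ℝ} (i : ℕ) : ∑ a, evol D Λ F h f i a = ∑ a, f a := by
  induction i with
  | zero => rfl
  | succ i ih =>
    show ∑ a, (evol D Λ F h f i a + h * fgen D Λ F (evol D Λ F h f i) a) = _
    rw [Finset.sum_add_distrib, ← Finset.mul_sum, ih]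
    have : ∑ a, fgen D Λ F (evol D Λ F h f i) a = 0 :=
      sum_gen_zero (fun k : F => rmove_bijective (hF k.1 k.2)) _
    rw [this, mul_zero, add_zero]

lemma evol_grad {Λ : Finset I} {F : Finset J} (hF : ∀ j ∈ F, D.block j ⊆ Λ) {h : ℝ}
    (hh : 0 ≤ h) (hR : h * ∑ j ∈ F, D.rate j ≤ 1) {f : (Λ → Bool) → ℝ} {lam : ℝ}
    (hlam : 0 ≤ lam) {H : I → ℝ} (hfH : ∀ (x : Λ) a, |f (flipAt x a) - f a| ≤ H x)
    (hHs : ∀ x, ∀ F : Finset J, ∑ j ∈ F,
      (if x ∈ D.block j then D.rate j * ∑ y ∈ D.block j, H y else 0) ≤ lam * H x)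
    (i : ℕ) (x : Λ) (a : Λ → Bool) :
    |evol D Λ F h f i (flipAt x a) - evol D Λ F h f i a| ≤ (1 + h * lam) ^ i * H x := by
  induction i generalizing x a with
  | zero => simpa [evol] using hfH x a
  | succ i ih =>
    have hq : 0 ≤ (1 + h * lam) ^ i := by positivity
    have e1 : ∀ x : Λ, ∑ k : F, (if x ∈ rblock D Λ k then
        D.rate k * ∑ y ∈ rblock D Λ k, (1 + h * lam) ^ i * H y else 0) ≤
        lam * ((1 + h * lam) ^ i * H x) := by
      intro x
      have h1 := mul_le_mul_of_nonneg_left (hHs x F) hq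
      refine le_trans (le_of_eq ?_) (h1.trans (le_of_eq (by ring)))
      rw [Finset.mul_sum, ← Finset.sum_coe_sort F]
      apply Finset.sum_congr rfl
      intro k _
      rw [← Finset.mul_sum, sum_rblock (hF k k.2)]
      by_cases hx : x.1 ∈ D.block k
      · rw [if_pos hx, if_pos ((mem_rblock D Λ k x).2 hx)]; ring
      · rw [if_neg hx, if_neg fun h => hx ((mem_rblock D Λ k x).1 h)]; ring
    rw [← Finset.sum_coe_sort F] at hR
    have e4 : ∀ (k : F) (a : Λ → Bool) (x : Λ), x ∉ rblock D Λ k → rmove D Λ k a x = a x :=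
      fun k a x hx => rmove_off (D := D) Λ k.1 a x hx
    have e5 : ∀ (k : F) (a a' : Λ → Bool), (∀ x ∈ rblock D Λ k, a x = a' x) →
        ∀ x ∈ rblock D Λ k, rmove D Λ k a x = rmove D Λ k a' x :=
      fun k a a' h x hx => rmove_loc (D := D) (hF k.1 k.2) a a' h x hx
    have h2 := grad_step (V := Λ) (K := F) (c := fun k : F => D.rate k)
      (τ := fun k : F => rmove D Λ k) (b := fun k : F => rblock D Λ k)
      (fun k => D.rate_nonneg k) e4 e5 (g := evol D Λ F h f i)
      (w := fun x => (1 + h * lam) ^ i * H x) ih e1 hh hR x a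
    refine h2.trans (le_of_eq ?_)
    rw [pow_succ]; ring

/-- domination of the law of the process at later times -/
theorem law_le [Countable J] (hN : D.BoundedBy N) (hN0 : 0 ≤ N) (hμ : μ.real Set.univ ≤ 1)
    (hX : IsSolution D μ X) {K₀ : ℝ} (h0 : DomBy μ X K₀ 0) {t : ℝ}
    (ht : 0 ≤ t) : DomBy μ X K₀ t := by
  classical
  intro Λ₀ C hC
  apply le_of_forall_pos_le_add
  intro ε hε
  set lam : ℝ := 2 * N + 1 with hlam
  have hlam0 : 0 < lam := by rw [hlam]; linarith
  obtain ⟨H, hH0, hH1, hHs, hHp⟩ := exists_super hN hN0 Λ₀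
  set A : ℝ := Real.exp (lam * t) with hA
  have hA0 : 0 < A := Real.exp_pos _
  set δ : ℝ := ε / (2 * (A * t + 1)) with hδ
  have hAt : 0 ≤ A * t := by positivity
  have hδ0 : 0 < δ := by positivity
  obtain ⟨F, _, hF⟩ := exists_moves D H ∅ hδ0
  set Λ : Finset I := Λ₀ ∪ F.biUnion D.block with hΛ
  have hFΛ : ∀ j ∈ F, D.block j ⊆ Λ := fun j hj =>
    (Finset.subset_biUnion_of_mem D.block hj).trans Finset.subset_union_right
  have hCΛ : DepOn Λ C := hC.mono Finset.subset_union_left
  set R : ℝ := ∑ j ∈ F, D.rate j with hR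
  have hR0 : 0 ≤ R := Finset.sum_nonneg fun j _ => D.rate_nonneg j
  set K : ℝ := 2 * R * (Λ.card * N) with hK
  have hK0 : 0 ≤ K := by positivity
  obtain ⟨n, hn⟩ := exists_nat_gt (t * R + 2 * K * t ^ 2 / ε + 1)
  have hn0 : (0 : ℝ) < n := by
    have : 0 ≤ t * R + 2 * K * t ^ 2 / ε := by positivity
    linarith
  set h : ℝ := t / n with hh
  have hh0 : 0 ≤ h := by positivity
  have hnh : n * h = t := by rw [hh]; field_simp
  have hhR : h * R ≤ 1 := by
    rw [hh, div_mul_eq_mul_div, div_le_one hn0]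
    have : 0 ≤ 2 * K * t ^ 2 / ε := by positivity
    linarith
  have hKh : K * t * h ≤ ε / 2 := by
    have h1 : 2 * K * t ^ 2 / ε ≤ n := by
      have : 0 ≤ t * R := by positivity
      linarith
    rw [div_le_iff₀ hε] at h1
    rw [hh, ← mul_div_assoc, div_le_iff₀ hn0]
    nlinarith
  set f : (Λ → Bool) → ℝ := fun a => if C (ext Λ a) then 1 else 0 with hf
  have hf0 : ∀ a, 0 ≤ f a := fun a => by simp only [hf]; split_ifs <;> norm_num
  have hf1 : ∀ a, f a ≤ 1 := fun a => by simp only [hf]; split_ifs <;> norm_num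
  have hfH : ∀ (x : Λ) a, |f (flipAt x a) - f a| ≤ H x := by
    intro x a
    by_cases hx : x.1 ∈ Λ₀
    · refine le_trans ?_ (hH1 x hx)
      rw [abs_le]
      constructor <;> linarith [hf0 (flipAt x a), hf1 (flipAt x a), hf0 a, hf1 a]
    · have : C (ext Λ (flipAt x a)) = C (ext Λ a) := by
        apply hC
        intro y hy
        have hyx : y ≠ x.1 := fun h => hx (h ▸ hy)
        simp only [ext]
        split_ifs with h
        · unfold flipAt
          rw [Function.update_of_ne (fun h' => hyx (congrArg Subtype.val h'))]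
        · rfl
      simp only [hf, this, sub_self, abs_zero]
      exact hH0 x
  set g : ℕ → (Λ → Bool) → ℝ := evol D Λ F h f with hg
  have hmem : ∀ i a, 0 ≤ g i a ∧ g i a ≤ 1 := fun i a => evol_mem hh0 hhR hf0 hf1 i a
  have hgrad : ∀ i, i ≤ n → ∀ (x : Λ) a, |g i (flipAt x a) - g i a| ≤ A * H x := by
    intro i hi x a
    refine (evol_grad hFΛ hh0 hhR hlam0.le hfH hHp i x a).trans ?_
    apply mul_le_mul_of_nonneg_right _ (hH0 x)
    have h1 : 1 + h * lam ≤ Real.exp (h * lam) := by
      have := Real.add_one_le_exp (h * lam); linarith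
    have h2 : (1 : ℝ) ≤ 1 + h * lam := by nlinarith
    calc (1 + h * lam) ^ i ≤ (1 + h * lam) ^ n := pow_le_pow_right₀ h2 hi
      _ ≤ (Real.exp (h * lam)) ^ n := pow_le_pow_left₀ (by positivity) h1 n
      _ = A := by rw [← Real.exp_nat_mul, hA, ← hnh]; ring_nf
  have hgI : ∀ i r, 0 ≤ r → Integrable (fun w => g i (res Λ (X r w))) μ := fun i r hr =>
    integrable_comp' (f := fun ω => g i (res Λ ω)) hX.measurable
      (depOn_comp_res Λ (g i)).measurable (K := 1)
      (fun ω => by
        rw [abs_le]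
        exact ⟨by have := (hmem i (res Λ ω)).1; linarith, (hmem i _).2⟩) hr
  have hvb : ∀ i a, |fgen D Λ F (g i) a| ≤ R := by
    intro i a
    unfold fgen gen
    refine (Finset.abs_sum_le_sum_abs _ _).trans ?_
    rw [hR, ← Finset.sum_coe_sort F]
    apply Finset.sum_le_sum
    intro k _
    rw [abs_mul, abs_of_nonneg (D.rate_nonneg k)]
    have h1 : |g i (rmove D Λ k a) - g i a| ≤ 1 := by
      rw [abs_le]
      constructor <;> linarith [(hmem i (rmove D Λ k a)).1, (hmem i (rmove D Λ k a)).2,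
        (hmem i a).1, (hmem i a).2]
    have := mul_le_mul_of_nonneg_left h1 (D.rate_nonneg k)
    linarith
  have hvI : ∀ i r, 0 ≤ r → Integrable (fun w => fgen D Λ F (g i) (res Λ (X r w))) μ :=
    fun i r hr => integrable_comp' (f := fun ω => fgen D Λ F (g i) (res Λ ω)) hX.measurable
      (depOn_comp_res Λ (fgen D Λ F (g i))).measurable (K := R) (fun ω => hvb i _) hr
  set φ : ℕ → ℝ := fun i => ∫ w, g i (res Λ (X (t - i * h) w)) ∂μ with hφ
  have hstep : ∀ i, i < n → φ i ≤ φ (i + 1) + (A * δ * h + K * h ^ 2) := by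
    intro i hi
    have hin : ((i : ℝ) + 1) * h ≤ t := by
      rw [← hnh]
      apply mul_le_mul_of_nonneg_right _ hh0
      exact_mod_cast hi
    set s : ℝ := t - (i + 1) * h with hs
    have hs0 : 0 ≤ s := by linarith
    have e0 : t - i * h = s + h := by rw [hs]; ring
    have e0' : t - ((i + 1 : ℕ) : ℝ) * h = s := by rw [hs]; push_cast; ring
    have h1 := step_expansion hN hμ hX (g := g i) (v := fgen D Λ F (g i)) (δ := A * δ) (K := K)
      (fun ω => (gen_split hN hN0 hFΛ hH0 hHs hA0.le (hgrad i hi.le) ω).trans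
        (mul_le_mul_of_nonneg_left hF hA0.le))
      (fun ω => generator_le hN (depOn_comp_res Λ (fgen D Λ F (g i)))
        (fun ω => hvb i _) ω) hs0 hh0 (E := Set.univ) (@MeasurableSet.univ _ (past X s))
    simp only [setIntegral_univ] at h1
    have h2 : ∫ w, g (i + 1) (res Λ (X s w)) ∂μ = ∫ w, g i (res Λ (X s w)) ∂μ
        + h * ∫ w, fgen D Λ F (g i) (res Λ (X s w)) ∂μ := by
      rw [← integral_const_mul, ← integral_add (hgI i s hs0) ((hvI i s hs0).const_mul h)]
      rfl
    simp only [hφ]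
    rw [e0, e0', h2]
    have := (abs_le.1 h1).2
    linarith
  have hall : ∀ i, i ≤ n → φ 0 ≤ φ i + i * (A * δ * h + K * h ^ 2) := by
    intro i
    induction i with
    | zero => intro _; simp
    | succ i ih =>
      intro hi
      have h1 := ih (by omega)
      have h2 := hstep i (by omega)
      push_cast
      linarith
  have h1 := hall n le_rfl
  have h2 : φ 0 = μ.real {w | C (X t w)} := by
    simp only [hφ, hg]
    have : t - ((0 : ℕ) : ℝ) * h = t := by push_cast; ring
    rw [this]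
    have hm := measurableSet_visit' hX.measurable hC ht
    rw [← integral_indicator_one hm]
    congr 1
    funext w
    simp only [evol, hf]
    rw [← hCΛ.factor (X t w)]
    simp [Set.indicator_apply]
  have h3 : φ n ≤ K₀ * (fairCoins I).real {ω | C ω} := by
    simp only [hφ]
    have : t - (n : ℝ) * h = 0 := by rw [hnh]; ring
    rw [this]
    refine (dom_integral h0 (hX.measurable 0 le_rfl) Λ (fun a => (hmem n a).1)).trans ?_
    rw [fair_cyl hCΛ]
    simp only [hg]
    rw [evol_sum hFΛ n]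
  have h4 : n * (A * δ * h + K * h ^ 2) ≤ ε := by
    have e1 : n * (A * δ * h + K * h ^ 2) = A * t * δ + K * t * h := by
      rw [← hnh]; ring
    rw [e1]
    have e2 : A * t * δ ≤ ε / 2 := by
      rw [hδ, ← mul_div_assoc, div_le_iff₀ (by positivity)]
      nlinarith
    linarith
  rw [h2] at h1
  linarith

end Pool.Agent.KS6_99.EX
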