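import Mathlib
import Pool.Graph.R_seed8.Results.MP_20d613_pr.ExclusionVsOrdinary
import Pool.Agent.KS6_99.EX.Law

set_option autoImplicit false

open MeasureTheory Filter Topology
open Pool.Agent.Results.MP_20d613_pr.ExclusionVsOrdinary

namespace Pool.Agent.KS6_99.EX

variable {I J : Type*} [DecidableEq I] {D : Dynamics I J} {N : ℝ}
  {Ω : Type*} [MeasurableSpace Ω] {μ : Measure Ω} [IsFiniteMeasure μ] {X : ℝ → Ω → I → Bool}

/-- a bound for the probability of a jump of the bit `x` -/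
lemma jump_le (hN : D.BoundedBy N) (hX : IsSolution D μ X) {Λ : Finset I}
    {C : (I → Bool) → Prop} (hC : DepOn Λ C) (x : I) {s h : ℝ} (h0 : 0 ≤ s) (hh : 0 ≤ h) :
    μ.real {w | C (X s w) ∧ X (s + h) w x ≠ X s w x} ≤
      2 * N * h * μ.real {w | C (X s w)} := by
  set E : Bool → Set Ω := fun b => {w | C (X s w) ∧ X s w x = b} with hE
  have hCm : MeasurableSet {ω : I → Bool | C ω} := measurableSet_setOfPred.2 hC.measurable
  have hxm : ∀ b : Bool, MeasurableSet {ω : I → Bool | ω x = b} := fun b => by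
    have h1 : Measurable fun ω : I → Bool => ω x := measurable_pi_apply x
    exact h1 (MeasurableSet.singleton b)
  have hEp : ∀ b, MeasurableSet[past X s] (E b) := fun b =>
    measurableSet_past h0 le_rfl (hCm.inter (hxm b))
  have hEm : ∀ b, MeasurableSet (E b) := fun b => past_le hX.measurable s _ (hEp b)
  have hst : ∀ b, MeasurableSet {w | X (s + h) w x ≠ b} := fun b =>
    hX.measurable (s + h) (by linarith) (hxm b).compl
  have key : ∀ b, μ.real (E b ∩ {w | X (s + h) w x ≠ b}) ≤ 2 * N * h * μ.real (E b) := by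
    intro b
    set f : (I → Bool) → ℝ := fun ω => if ω x = b then 0 else 1 with hf
    have hfD : DepOn {x} f := by
      intro ω ω' hω
      simp only [hf, hω x (Finset.mem_singleton_self x)]
    have hfb : ∀ ω, |f ω| ≤ 1 := by
      intro ω; simp only [hf]; split_ifs <;> simp
    have hgen : ∀ ω, |D.generator f ω| ≤ 2 * N := fun ω => by
      have := generator_le hN hfD hfb ω
      simpa using this
    have hm := hX.martingale f ⟨{x}, hfD⟩ s (s + h) h0 (by linarith) (E b) (hEp b)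
    have e1 : ∫ w in E b, f (X s w) ∂μ = 0 := by
      rw [setIntegral_congr_fun (hEm b) (g := fun _ => (0 : ℝ)) (fun w hw => by
        have : X s w x = b := hw.2
        simp [hf, this])]
      simp
    have e2 : ∫ w in E b, f (X (s + h) w) ∂μ = μ.real (E b ∩ {w | X (s + h) w x ≠ b}) := by
      have : (fun w => f (X (s + h) w)) = Set.indicator {w | X (s + h) w x ≠ b} (fun _ => 1) := by
        funext w
        by_cases hb : X (s + h) w x = b
        · simp [hf, hb]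
        · simp [hf, hb]
      rw [this, setIntegral_indicator (hst b)]
      simp
    rw [e1, e2, sub_zero] at hm
    rw [hm]
    refine (le_abs_self _).trans ?_
    rw [← Real.norm_eq_abs]
    have h1 := intervalIntegral.norm_integral_le_of_norm_le_const (a := s) (b := s + h)
      (C := 2 * N * μ.real (E b)) (f := fun r => ∫ w in E b, D.generator f (X r w) ∂μ)
      (fun r _ => norm_setIntegral_le_of_norm_le_const (μ := μ) (s := E b) (C := 2 * N)
        (f := fun w => D.generator f (X r w)) (measure_lt_top _ _)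
        (fun w _ => by rw [Real.norm_eq_abs]; exact hgen _))
    refine h1.trans (le_of_eq ?_)
    rw [add_sub_cancel_left, abs_of_nonneg hh]; ring
  have hsub : {w | C (X s w) ∧ X (s + h) w x ≠ X s w x} ⊆
      (E true ∩ {w | X (s + h) w x ≠ true}) ∪ (E false ∩ {w | X (s + h) w x ≠ false}) := by
    rintro w ⟨h1, h2⟩
    cases hb : X s w x
    · right; exact ⟨⟨h1, hb⟩, by rw [hb] at h2; exact h2⟩
    · left; exact ⟨⟨h1, hb⟩, by rw [hb] at h2; exact h2⟩
  have hsum : μ.real (E true) + μ.real (E false) = μ.real {w | C (X s w)} := by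
    rw [← measureReal_union _ (hEm false)]
    · congr 1
      ext w
      simp only [hE, Set.mem_union, Set.mem_ofPred_eq]
      cases X s w x <;> simp
    · rw [Set.disjoint_left]
      rintro w ⟨_, h1⟩ ⟨_, h2⟩
      rw [h1] at h2
      exact Bool.noConfusion h2
  calc μ.real {w | C (X s w) ∧ X (s + h) w x ≠ X s w x}
      ≤ μ.real (E true ∩ {w | X (s + h) w x ≠ true}) +
        μ.real (E false ∩ {w | X (s + h) w x ≠ false}) :=
        (measureReal_mono hsub (measure_ne_top _ _)).trans (measureReal_union_le _ _)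
    _ ≤ 2 * N * h * μ.real (E true) + 2 * N * h * μ.real (E false) :=
        add_le_add (key true) (key false)
    _ = _ := by rw [← hsum]; ring

/-- a jump of `x` after a visit to `C` in the dyadic grid -/
def jumps (X : ℝ → Ω → I → Bool) (C : (I → Bool) → Prop) (x : I) (T m : ℕ) : Set Ω :=
  ⋃ i ∈ Finset.range (T * 2 ^ m), {w | C (X (i * (1 / 2) ^ m) w) ∧
    X (i * (1 / 2) ^ m + (1 / 2) ^ m) w x ≠ X (i * (1 / 2) ^ m) w x}

omit [MeasurableSpace Ω] in
lemma bad_subset' {K : Set (I → Bool)} {C : (I → Bool) → Prop} {Λ : Finset I}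
    (hC : DepOn Λ C) (hKC : ∀ κ ∈ K, C κ) (T : ℕ) (x : I) :
    bad X K T x ⊆ ⋃ m₀ : ℕ, ⋂ m ≥ m₀, jumps X C x T m := by
  rintro w ⟨hw, t, ht0, htT, κ, hκ, hlim, hne⟩
  have h3 : ∀ᶠ s in 𝓝[<] t, ∀ y ∈ insert x Λ, X s w y = κ y := by
    rw [Filter.eventually_all_finset]
    intro y _
    exact hlim y
  have h4 : ∀ᶠ s in 𝓝[>] t, X s w x = X t w x := (hw x).1 t ht0.le
  rw [eventually_nhdsWithin_iff, Metric.eventually_nhds_iff] at h3 h4
  obtain ⟨ε₁, hε₁, h3⟩ := h3
  obtain ⟨ε₂, hε₂, h4⟩ := h4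
  obtain ⟨m₀, hm₀⟩ := exists_pow_lt_of_lt_one (lt_min hε₁ hε₂) (by norm_num : (1 / 2 : ℝ) < 1)
  refine Set.mem_iUnion.2 ⟨m₀, Set.mem_iInter₂.2 fun m hm => ?_⟩
  set h : ℝ := (1 / 2) ^ m with hh
  have hh0 : 0 < h := by positivity
  have hhm : h < min ε₁ ε₂ := lt_of_le_of_lt
    (pow_le_pow_of_le_one (by norm_num) (by norm_num) hm) hm₀
  have hh1 := hhm.trans_le (min_le_left _ _)
  have hh2 := hhm.trans_le (min_le_right _ _)
  obtain ⟨i, hi⟩ : ∃ i, ⌈t / h⌉₊ = i + 1 :=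
    Nat.exists_eq_succ_of_ne_zero (Nat.ceil_pos.2 (by positivity)).ne'
  have h1 : (i : ℝ) < t / h := Nat.lt_ceil.1 (by omega)
  have h2 : t / h ≤ (i : ℝ) + 1 := by
    have := Nat.le_ceil (t / h)
    rw [hi] at this
    exact_mod_cast this
  rw [lt_div_iff₀ hh0] at h1
  rw [div_le_iff₀ hh0] at h2
  have h2' : t ≤ i * h + h := by linarith
  have hleft := h3 (y := (i : ℝ) * h) (by
    rw [Real.dist_eq, abs_sub_comm, abs_of_pos (by linarith)]; linarith) h1
  have hright : X (i * h + h) w x = X t w x := by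
    rcases eq_or_lt_of_le h2' with h5 | h5
    · rw [← h5]
    · exact h4 (by rw [Real.dist_eq, abs_of_pos (by linarith)]; linarith) h5
  refine Set.mem_iUnion₂.2 ⟨i, ?_, ?_, ?_⟩
  · rw [Finset.mem_range]
    have h5 : (i : ℝ) * h < T := h1.trans_le htT
    have h6 : h * 2 ^ m = 1 := by rw [hh, ← mul_pow]; norm_num
    have h7 : (i : ℝ) < ((T * 2 ^ m : ℕ) : ℝ) := by
      push_cast
      have h8 : (0 : ℝ) < 2 ^ m := by positivity
      calc (i : ℝ) = i * h * 2 ^ m := by rw [mul_assoc, h6, mul_one]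
        _ < T * 2 ^ m := mul_lt_mul_of_pos_right h5 h8
    exact_mod_cast h7
  · rw [hC _ κ fun y hy => hleft y (Finset.mem_insert_of_mem hy)]
    exact hKC κ hκ
  · rw [hright, hleft x (Finset.mem_insert_self x Λ)]
    exact hne

lemma bad_le [Countable J] (hN : D.BoundedBy N) (hN0 : 0 ≤ N) (hX : IsSolution D μ X) {K₀ : ℝ}
    (hdom : ∀ t, 0 ≤ t → DomBy μ X K₀ t) {K : Set (I → Bool)} {C : (I → Bool) → Prop}
    {Λ : Finset I} (hC : DepOn Λ C) (hKC : ∀ κ ∈ K, C κ) (T : ℕ) (x : I) :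
    μ (bad X K T x) ≤ ENNReal.ofReal (2 * N * T * (K₀ * (fairCoins I).real {ω | C ω})) := by
  refine (measure_mono (bad_subset' hC hKC T x)).trans ?_
  have hmono : Monotone fun m₀ : ℕ => ⋂ m ≥ m₀, jumps X C x T m := by
    intro a b hab w hw
    simp only [Set.mem_iInter] at hw ⊢
    exact fun m hm => hw m (le_trans hab hm)
  rw [hmono.measure_iUnion]
  apply iSup_le
  intro m
  have h1 : (⋂ m' ≥ m, jumps X C x T m') ⊆ jumps X C x T m :=
    Set.iInter₂_subset m le_rfl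
  refine (measure_mono h1).trans ?_
  rw [← ofReal_measureReal (measure_ne_top _ _)]
  apply ENNReal.ofReal_le_ofReal
  unfold jumps
  refine (measureReal_biUnion_finset_le _ _).trans ?_
  set h : ℝ := (1 / 2) ^ m with hh
  have hh0 : 0 < h := by positivity
  have h2 : ∀ i ∈ Finset.range (T * 2 ^ m), μ.real {w | C (X (i * h) w) ∧
      X (i * h + h) w x ≠ X (i * h) w x} ≤
      2 * N * h * (K₀ * (fairCoins I).real {ω | C ω}) := by
    intro i _
    refine (jump_le hN hX hC x (by positivity) hh0.le).trans ?_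
    exact mul_le_mul_of_nonneg_left (hdom _ (by positivity) Λ C hC) (by positivity)
  refine (Finset.sum_le_sum h2).trans (le_of_eq ?_)
  rw [Finset.sum_const, Finset.card_range, nsmul_eq_mul]
  have h6 : h * 2 ^ m = 1 := by rw [hh, ← mul_pow]; norm_num
  push_cast
  calc (T : ℝ) * 2 ^ m * (2 * N * h * (K₀ * (fairCoins I).real {ω | C ω}))
      = 2 * N * T * (K₀ * (fairCoins I).real {ω | C ω}) * (h * 2 ^ m) := by ring
    _ = _ := by rw [h6, mul_one]

lemma bad_zero [Countable J] (hN : D.BoundedBy N) (hN0 : 0 ≤ N) (hX : IsSolution D μ X)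
    {K₀ : ℝ} (hdom : ∀ t, 0 ≤ t → DomBy μ X K₀ t) {K : Set (I → Bool)}
    {C : ℕ → (I → Bool) → Prop} {Λ : ℕ → Finset I}
    (hC : ∀ n, DepOn (Λ n) (C n)) (hKC : ∀ n, ∀ κ ∈ K, C n κ)
    (hlim : Tendsto (fun n => (fairCoins I).real {ω | C n ω}) atTop (𝓝 0))
    (T : ℕ) (x : I) : μ (bad X K T x) = 0 := by
  have h1 : Tendsto (fun n => ENNReal.ofReal (2 * N * T * (K₀ * (fairCoins I).real {ω | C n ω})))
      atTop (𝓝 (ENNReal.ofReal (2 * N * T * (K₀ * 0)))) :=
    ENNReal.tendsto_ofReal ((hlim.const_mul K₀).const_mul _)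
  rw [mul_zero, mul_zero, ENNReal.ofReal_zero] at h1
  exact le_antisymm (ge_of_tendsto' h1 fun n => bad_le hN hN0 hX hdom (hC n) (hKC n) T x)
    bot_le

omit [MeasurableSpace Ω] [DecidableEq I] in
/-- a limit of times at which the path is in `C n` is a time at which it is in `K` -/
lemma mem_of_limits' {w : Ω} (hw : IsCadlag fun t => X t w) {K : Set (I → Bool)}
    {C : ℕ → (I → Bool) → Prop} {Λ : ℕ → Finset I} (hC : ∀ n, DepOn (Λ n) (C n))
    (hanti : ∀ n m, n ≤ m → ∀ ω, C m ω → C n ω) (hCK : ∀ ω, (∀ n, C n ω) → ω ∈ K)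
    {T : ℝ} (hbad : ∀ x, w ∉ bad X K T x)
    (hhit : ∀ n, ∃ t, 0 ≤ t ∧ t ≤ T ∧ C n (X t w)) : ∃ t, 0 ≤ t ∧ t ≤ T ∧ X t w ∈ K := by
  choose t ht0 htT hCt using hhit
  set F : Ultrafilter ℕ := hyperfilter ℕ with hF
  have hFle : (F : Filter ℕ) ≤ atTop := Nat.hyperfilter_le_atTop
  obtain ⟨a, ⟨ha0, haT⟩, hlim⟩ := (isCompact_Icc (a := (0 : ℝ)) (b := T)).ultrafilter_le_nhds'
    (F.map t) (by
      rw [Ultrafilter.mem_map]
      exact Filter.Eventually.of_forall (f := (F : Filter ℕ)) fun n => ⟨ht0 n, htT n⟩)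
  have hlim' : Tendsto t F (𝓝 a) := hlim
  by_cases hcase : ∀ᶠ n in (F : Filter ℕ), a ≤ t n
  · refine ⟨a, ha0, haT, hCK _ fun m => ?_⟩
    have h1 : ∀ᶠ s in 𝓝 a, a ≤ s → ∀ x ∈ Λ m, X s w x = X a w x := by
      have h2 : ∀ᶠ s in 𝓝[>] a, ∀ x ∈ Λ m, X s w x = X a w x := by
        rw [Filter.eventually_all_finset]
        intro x _
        exact (hw x).1 a ha0
      rw [eventually_nhdsWithin_iff] at h2
      filter_upwards [h2] with s hs has x hx
      rcases eq_or_lt_of_le has with h | h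
      · rw [← h]
      · exact hs h x hx
    obtain ⟨n, ⟨hn1, hn2⟩, hn3⟩ := (((hlim'.eventually h1).and hcase).and
      (hFle (eventually_ge_atTop m))).exists
    have h3 := hn1 hn2
    have h4 := hanti m n hn3 _ (hCt n)
    rwa [hC m _ _ h3] at h4
  · have hcase' : ∀ᶠ n in (F : Filter ℕ), t n < a := by
      rw [← Ultrafilter.eventually_not] at hcase
      filter_upwards [hcase] with n hn
      exact not_le.1 hn
    have hapos : 0 < a := by
      obtain ⟨n, hn⟩ := hcase'.exists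
      exact lt_of_le_of_lt (ht0 n) hn
    have hleft : ∀ x, ∃ b, ∀ᶠ s in 𝓝[<] a, X s w x = b := fun x => (hw x).2 a hapos
    choose κ hκ using hleft
    have hκK : κ ∈ K := by
      apply hCK
      intro m
      have h1 : ∀ᶠ s in 𝓝 a, s < a → ∀ x ∈ Λ m, X s w x = κ x := by
        have h2 : ∀ᶠ s in 𝓝[<] a, ∀ x ∈ Λ m, X s w x = κ x := by
          rw [Filter.eventually_all_finset]
          intro x _
          exact hκ x
        rw [eventually_nhdsWithin_iff] at h2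
        exact h2
      obtain ⟨n, ⟨hn1, hn2⟩, hn3⟩ := (((hlim'.eventually h1).and hcase').and
        (hFle (eventually_ge_atTop m))).exists
      have h3 := hn1 hn2
      have h4 := hanti m n hn3 _ (hCt n)
      rwa [hC m _ _ h3] at h4
    refine ⟨a, ha0, haT, ?_⟩
    have h5 : X a w = κ := by
      funext x
      by_contra hne
      exact hbad x ⟨hw, a, hapos, haT, κ, hκK, hκ, hne⟩
    rw [h5]; exact hκK

lemma measurableSet_gridHit' (hX : ∀ t, 0 ≤ t → Measurable (X t)) {Λ : Finset I}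
    {C : (I → Bool) → Prop} (hC : DepOn Λ C) (R m : ℕ) : MeasurableSet (gridHit X C R m) := by
  have : gridHit X C R m = ⋃ i : ℕ, ⋃ _ : i < (R + 1) * 2 ^ m,
      {w | C (X ((i : ℝ) / 2 ^ m) w)} := by
    ext w; simp [gridHit]
  rw [this]
  apply MeasurableSet.iUnion
  intro i
  apply MeasurableSet.iUnion
  intro _
  exact measurableSet_visit' hX hC (by positivity)

omit [DecidableEq I] [IsFiniteMeasure μ] in
theorem hit_limit' [Countable I]
    (hXc : ∀ᵐ w ∂μ, IsCadlag fun t => X t w) {K : Set (I → Bool)}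
    {C : ℕ → (I → Bool) → Prop} {Λ : ℕ → Finset I} (hC : ∀ n, DepOn (Λ n) (C n))
    (hanti : ∀ n m, n ≤ m → ∀ ω, C m ω → C n ω) (hCK : ∀ ω, (∀ n, C n ω) → ω ∈ K)
    (R : ℕ) (hbad : ∀ x, μ (bad X K ((R : ℝ) + 1) x) = 0) :
    μ (⋂ n, ⋃ m, gridHit X (C n) R m) ≤ μ {w | ∃ t, 0 ≤ t ∧ t ≤ (R : ℝ) + 1 ∧ X t w ∈ K} := by
  apply measure_mono_ae
  have hb : ∀ᵐ w ∂μ, ∀ x, w ∉ bad X K ((R : ℝ) + 1) x := by
    rw [ae_all_iff]
    intro x
    exact measure_eq_zero_iff_ae_notMem.1 (hbad x)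
  filter_upwards [hXc, hb] with w hw hbw hmem
  apply mem_of_limits' hw hC hanti hCK hbw
  intro n
  have := Set.mem_iInter.1 hmem n
  simp only [Set.mem_iUnion] at this
  obtain ⟨m, i, hi, hCi⟩ := this
  refine ⟨(i : ℝ) / 2 ^ m, by positivity, ?_, hCi⟩
  rw [div_le_iff₀ (by positivity)]
  have : ((i : ℕ) : ℝ) < (((R + 1) * 2 ^ m : ℕ) : ℝ) := by exact_mod_cast hi
  push_cast at this
  exact this.le

omit [IsFiniteMeasure μ] in
/-- from cylinder events to Borel null sets -/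
theorem assemble [Countable I] {Ω' : Type*} [MeasurableSpace Ω'] {μ' : Measure Ω'}
    [IsFiniteMeasure μ'] {Y : ℝ → Ω' → I → Bool} (hYm : ∀ t, 0 ≤ t → Measurable (Y t))
    (hYc : ∀ᵐ w ∂μ', IsCadlag fun t => Y t w) {T R : ℕ} {E r : ℝ} (hE : 0 ≤ E)
    (hcyl : ∀ (Λ : Finset I) (C : (I → Bool) → Prop), DepOn Λ C →
      μ {w | ∃ t : ℝ, 0 ≤ t ∧ t ≤ T ∧ C (X t w)} ≤
        ENNReal.ofReal (E * (μ'.real (⋃ m, gridHit Y C R m) + r)))
    (hbad : ∀ (K : Set (I → Bool)) (C : ℕ → (I → Bool) → Prop) (Λ : ℕ → Finset I),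
      (∀ n, DepOn (Λ n) (C n)) → (∀ n, ∀ κ ∈ K, C n κ) →
      Tendsto (fun n => (fairCoins I).real {ω | C n ω}) atTop (𝓝 0) →
      ∀ x, μ' (bad Y K ((R : ℝ) + 1) x) = 0)
    {A : Set (I → Bool)} (hA : MeasurableSet A) (hA0 : fairCoins I A = 0) :
    μ {w | ∃ t : ℝ, 0 ≤ t ∧ t ≤ T ∧ X t w ∈ A} ≤
      ENNReal.ofReal (E * (μ'.real {w | ∃ t : ℝ, 0 ≤ t ∧ t ≤ (R : ℝ) + 1 ∧ Y t w ∈ A} + r)) := by
  set c : Set (I → Bool) → ENNReal := fun B => μ {w | ∃ t : ℝ, 0 ≤ t ∧ t ≤ T ∧ X t w ∈ B} with hc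
  have hcmono : ∀ B B', B ⊆ B' → c B ≤ c B' := by
    intro B B' hBB
    apply measure_mono
    rintro w ⟨t, h0, h1, h2⟩
    exact ⟨t, h0, h1, hBB h2⟩
  have hcsup : ∀ B : ℕ → Set (I → Bool), Monotone B → c (⋃ n, B n) = ⨆ n, c (B n) := by
    intro B hB
    have h1 : {w | ∃ t : ℝ, 0 ≤ t ∧ t ≤ T ∧ X t w ∈ ⋃ n, B n} =
        ⋃ n, {w | ∃ t : ℝ, 0 ≤ t ∧ t ≤ T ∧ X t w ∈ B n} := by
      ext w
      simp only [Set.mem_iUnion, Set.mem_ofPred_eq]
      constructor
      · rintro ⟨t, h0, h1, n, h2⟩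
        exact ⟨n, t, h0, h1, h2⟩
      · rintro ⟨n, t, h0, h1, h2⟩
        exact ⟨t, h0, h1, n, h2⟩
    simp only [hc]
    rw [h1]
    apply Monotone.measure_iUnion
    intro n m hnm w hw
    obtain ⟨t, h0, h1, h2⟩ := hw
    exact ⟨t, h0, h1, hB hnm h2⟩
  show c A ≤ _
  apply le_of_forall_lt
  intro δ hδlt
  refine lt_of_lt_of_le (b := c A) hδlt ?_
  apply le_of_forall_lt_imp_le_of_dense
  intro δ hδlt
  have : PolishSpace (I → Bool) := {}
  obtain ⟨K, hKA, hKc, hKU⟩ := exists_compact_of_capacity hA.analyticSet c hcmono hcsup hδlt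
  have hKcl : IsClosed K := hKc.isClosed
  obtain ⟨f, hf⟩ := Countable.exists_injective_nat I
  set Λ : ℕ → Finset I := fun n => ((Set.finite_Iic n).preimage hf.injOn).toFinset with hΛ
  have hΛmem : ∀ n x, x ∈ Λ n ↔ f x ≤ n := by
    intro n x
    simp [hΛ]
  have hΛex : ∀ x, ∃ n, ∀ m, n ≤ m → x ∈ Λ m := fun x =>
    ⟨f x, fun m hm => (hΛmem m x).2 hm⟩
  set C : ℕ → (I → Bool) → Prop := fun n => nbhd K (Λ n) with hC
  have hCdep : ∀ n, DepOn (Λ n) (C n) := fun n => depOn_nbhd K (Λ n)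
  have hanti : ∀ n m, n ≤ m → ∀ ω, C m ω → C n ω := by
    intro n m hnm ω
    rintro ⟨κ, hκ, h1⟩
    exact ⟨κ, hκ, fun x hx => h1 x ((hΛmem m x).2 (((hΛmem n x).1 hx).trans hnm))⟩
  have hCK : ∀ ω, (∀ n, C n ω) → ω ∈ K := fun ω hω => nbhd_limit hKcl hΛex ω hω
  have hKC : ∀ n, ∀ κ ∈ K, C n κ := fun n κ hκ => ⟨κ, hκ, fun _ _ => rfl⟩
  have hK0 : fairCoins I K = 0 := measure_mono_null hKA hA0
  have hlim : Tendsto (fun n => (fairCoins I).real {ω | C n ω}) atTop (𝓝 0) := by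
    have hmeas : ∀ n, MeasurableSet {ω | C n ω} := by
      intro n
      have h1 : Measurable (C n) := (hCdep n).measurable
      exact measurableSet_setOfPred.2 h1
    have hantiS : Antitone fun n => {ω | C n ω} := fun n m hnm ω hω => hanti n m hnm ω hω
    have h1 := tendsto_measure_iInter_atTop (μ := fairCoins I)
      (fun n => (hmeas n).nullMeasurableSet) hantiS ⟨0, measure_ne_top _ _⟩
    have h2 : ⋂ n, {ω | C n ω} = K := by
      ext ω
      simp only [Set.mem_iInter, Set.mem_ofPred_eq]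
      exact ⟨hCK ω, fun hω n => hKC n ω hω⟩
    rw [h2, hK0] at h1
    have h3 := (ENNReal.tendsto_toReal ENNReal.zero_ne_top).comp h1
    simpa [Measure.real, Function.comp_def] using h3
  set U : ℕ → Set Ω' := fun n => ⋃ m, gridHit Y (C n) R m with hU
  have hUm : ∀ n, MeasurableSet (U n) := fun n =>
    MeasurableSet.iUnion fun m => measurableSet_gridHit' hYm (hCdep n) R m
  have hUa : Antitone U := by
    intro n m hnm w hw
    simp only [hU, Set.mem_iUnion] at hw ⊢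
    obtain ⟨k, i, hi, hCi⟩ := hw
    exact ⟨k, i, hi, hanti n m hnm _ hCi⟩
  have hUlim : Tendsto (fun n => μ'.real (U n)) atTop (𝓝 (μ'.real (⋂ n, U n))) := by
    have := tendsto_measure_iInter_atTop (μ := μ') (fun n => (hUm n).nullMeasurableSet) hUa
      ⟨0, measure_ne_top _ _⟩
    exact (ENNReal.tendsto_toReal (measure_ne_top _ _)).comp this
  have hUK : μ'.real (⋂ n, U n) ≤
      μ'.real {w | ∃ t : ℝ, 0 ≤ t ∧ t ≤ (R : ℝ) + 1 ∧ Y t w ∈ A} := by
    have h1 := hit_limit' hYc hCdep hanti hCK R (hbad K C Λ hCdep hKC hlim)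
    have h2 : μ' {w | ∃ t, 0 ≤ t ∧ t ≤ (R : ℝ) + 1 ∧ Y t w ∈ K} ≤
        μ' {w | ∃ t, 0 ≤ t ∧ t ≤ (R : ℝ) + 1 ∧ Y t w ∈ A} := by
      apply measure_mono
      rintro w ⟨t, h0, h1, h2⟩
      exact ⟨t, h0, h1, hKA h2⟩
    exact ENNReal.toReal_mono (measure_ne_top _ _) (h1.trans h2)
  have hfin : δ ≤ ENNReal.ofReal (E * (μ'.real (⋂ n, U n) + r)) := by
    have h1 : Tendsto (fun n => ENNReal.ofReal (E * (μ'.real (U n) + r))) atTop
        (𝓝 (ENNReal.ofReal (E * (μ'.real (⋂ n, U n) + r)))) :=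
      ENNReal.tendsto_ofReal ((hUlim.add_const r).const_mul E)
    refine ge_of_tendsto' h1 fun n => ?_
    exact (hKU {ω | C n ω} (isOpen_nbhd K (Λ n)) (hKC n)).le.trans (hcyl (Λ n) (C n) (hCdep n))
  refine hfin.trans (ENNReal.ofReal_le_ofReal ?_)
  exact mul_le_mul_of_nonneg_left (by linarith) hE

end Pool.Agent.KS6_99.EX
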