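import Mathlib
import Pool.Graph.R_seed8.Results.MP_20d613_pr.ExclusionVsOrdinary
import Pool.Agent.KS6_99.EX.Hit

set_option autoImplicit false

open MeasureTheory Filter Topology
open Pool.Agent.Results.MP_20d613_pr.ExclusionVsOrdinary

namespace Pool.Agent.KS6_99.EX

variable {I J J' : Type*} [DecidableEq I] {D : Dynamics I J} {D' : Dynamics I J'} {N : ℝ}
  {Ω : Type*} [MeasurableSpace Ω] {μ : Measure Ω} [IsFiniteMeasure μ] {X : ℝ → Ω → I → Bool}
  {Ω' : Type*} [MeasurableSpace Ω'] {μ' : Measure Ω'} [IsFiniteMeasure μ']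
  {Y : ℝ → Ω' → I → Bool}

/-- a lower bound for the initial law -/
def LowBy {Ω : Type*} [MeasurableSpace Ω] (μ : Measure Ω) (X : ℝ → Ω → I → Bool) (κ θ : ℝ) :
    Prop :=
  ∀ (Λ : Finset I) (f : (Λ → Bool) → ℝ), (∀ a, 0 ≤ f a) → (∀ a, f a ≤ 1) →
    κ * ((1 / 2) ^ Λ.card * ∑ a, f a - θ) ≤ ∫ w, f (res Λ (X 0 w)) ∂μ

/-- the upper bound through an equilibrium potential -/
lemma upper_pot [Countable J] (hN : D.BoundedBy N) (hN0 : 0 ≤ N) (hμ : μ.real Set.univ ≤ 1)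
    (hX : IsSolution D μ X) {K₀ : ℝ} (hdom : DomBy μ X K₀ 0) {Λ₀ Λ : Finset I} (hΛ : Λ₀ ⊆ Λ)
    {C : (I → Bool) → Prop} (hC : DepOn Λ₀ C) {H : I → ℝ} (hH0 : ∀ x, 0 ≤ H x)
    (hH1 : ∀ x ∈ Λ₀, 1 ≤ H x) (hHs : Summable H)
    (hHp : ∀ x, ∀ F : Finset J, ∑ j ∈ F,
      (if x ∈ D.block j then D.rate j * ∑ y ∈ D.block j, H y else 0) ≤ (2 * N + 1) * H x)
    {F : Finset J} (hF : ∀ j ∈ F, D.block j ⊆ Λ) {δ : ℝ} (hδ : 0 ≤ δ)
    (hrem : ∑' j : {j // j ∉ F}, rho D H j ≤ δ) {g : (Λ → Bool) → ℝ}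
    (hg : IsPotential (fun k : F => D.rate k) (fun k : F => rmove D Λ k) (2 * N + 1)
      (fun a => C (ext Λ a)) g) (T : ℕ) :
    μ {w | ∃ t : ℝ, 0 ≤ t ∧ t ≤ T ∧ C (X t w)} ≤
      ENNReal.ofReal (Real.exp ((2 * N + 1) * (T + 1)) *
        (K₀ * ((1 / 2) ^ Λ.card * ∑ a, g a) + (T + 1) * δ)) := by
  have hgrad := potential_grad hN hN0 hF hC hH0 hH1 hHp hg
  have hgen : ∀ ω, |D.generator (fun ω => g (res Λ ω)) ω - fgen D Λ F g (res Λ ω)| ≤ δ := by
    intro ω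
    have := gen_split hN hN0 hF hH0 hHs zero_le_one (g := g)
      (fun x a => by rw [one_mul]; exact hgrad x a) ω
    rw [one_mul] at this
    exact this.trans hrem
  have hv : ∀ a, fgen D Λ F g a ≤ (2 * N + 1) * g a := by
    intro a
    by_cases hCa : C (ext Λ a)
    · have h1 : g a = 1 := hg.one _ hCa
      have h2 : fgen D Λ F g a ≤ 0 := by
        unfold fgen gen
        apply Finset.sum_nonpos
        intro k _
        apply mul_nonpos_of_nonneg_of_nonpos (D.rate_nonneg k)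
        rw [h1]
        have := hg.le_one (rmove D Λ k a)
        linarith
      rw [h1]; linarith
    · exact (hg.harm _ hCa).le
  have h1 := upper hN hμ hX (hC.mono hΛ) (by linarith : 0 < 2 * N + 1) hg.nonneg hg.le_one hg.one
    hv hδ hgen T
  refine h1.trans (ENNReal.ofReal_le_ofReal ?_)
  apply mul_le_mul_of_nonneg_left _ (Real.exp_pos _).le
  have h2 := dom_integral hdom (hX.measurable 0 le_rfl) Λ hg.nonneg
  linarith

/-- the lower bound through an equilibrium potential -/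
lemma lower_pot [Countable J] (hN : D.BoundedBy N) (hN0 : 0 ≤ N) (hμ : μ.real Set.univ ≤ 1)
    (hX : IsSolution D μ X) {Λ₀ Λ : Finset I} (hΛ : Λ₀ ⊆ Λ)
    {C : (I → Bool) → Prop} (hC : DepOn Λ₀ C) {H : I → ℝ} (hH0 : ∀ x, 0 ≤ H x)
    (hH1 : ∀ x ∈ Λ₀, 1 ≤ H x) (hHs : Summable H)
    (hHp : ∀ x, ∀ F : Finset J, ∑ j ∈ F,
      (if x ∈ D.block j then D.rate j * ∑ y ∈ D.block j, H y else 0) ≤ (2 * N + 1) * H x)
    {F : Finset J} (hF : ∀ j ∈ F, D.block j ⊆ Λ) {δ : ℝ} (hδ : 0 ≤ δ)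
    (hrem : ∑' j : {j // j ∉ F}, rho D H j ≤ δ) {u : (Λ → Bool) → ℝ}
    (hu : IsPotential (fun k : F => D.rate k) (fun k : F => rmove D Λ k) (2 * N + 1)
      (fun a => C (ext Λ a)) u) (R : ℕ) :
    ∫ w, u (res Λ (X 0 w)) ∂μ ≤
      μ.real (⋃ m, gridHit X C R m) + 1 / (1 + (2 * N + 1) * (R + 1)) + (R + 1) * δ := by
  have hgrad := potential_grad hN hN0 hF hC hH0 hH1 hHp hu
  have hgen : ∀ ω, |D.generator (fun ω => u (res Λ ω)) ω - fgen D Λ F u (res Λ ω)| ≤ δ := by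
    intro ω
    have := gen_split hN hN0 hF hH0 hHs zero_le_one (g := u)
      (fun x a => by rw [one_mul]; exact hgrad x a) ω
    rw [one_mul] at this
    exact this.trans hrem
  exact lower hN hμ hX (hC.mono hΛ) (by linarith : 0 < 2 * N + 1) hu.nonneg hu.le_one hu.one
    (fun a ha => (hu.harm _ ha).ge) hδ hgen R

lemma res_flip {Λ : Finset I} (x : Λ) (a : Λ → Bool) :
    res Λ (flipAt x.1 (ext Λ a)) = flipAt x a := by
  funext y
  unfold res flipAt
  by_cases hy : y = x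
  · subst hy
    rw [Function.update_self, Function.update_self]
    simp [ext]
  · rw [Function.update_of_ne hy, Function.update_of_ne fun h => hy (Subtype.ext h)]
    simp [ext]

lemma touch_fin (hN : D.BoundedBy N) {Λ : Finset I} (F : Finset J) (x : Λ) :
    ∑ k : F, (if x ∈ rblock D Λ k then D.rate k else 0) ≤ N := by
  refine le_trans (le_of_eq ?_) (touch_sum_le hN x.1 F)
  rw [← Finset.sum_coe_sort F]
  apply Finset.sum_congr rfl
  intro k _
  exact if_congr (mem_rblock D Λ k x) rfl rfl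

/-- the comparison for cylinder events, general dynamics -/
theorem cylinder_compare [Countable J] [Countable J'] (hN : D.BoundedBy N)
    (hN' : D'.BoundedBy N) (hN0 : 0 ≤ N) {ε : ℝ} (hε : 0 < ε)
    (hflip : ∀ x, ∃ j, (∀ ω, D'.move j ω = flipAt x ω) ∧ ε ≤ D'.rate j)
    (hμ : μ.real Set.univ ≤ 1) (hμ' : μ'.real Set.univ ≤ 1) (hX : IsSolution D μ X)
    (hY : IsSolution D' μ' Y) {K₀ : ℝ} (hK₀ : 0 ≤ K₀) (hdom : DomBy μ X K₀ 0) {κ θ : ℝ}
    (hκ : 0 < κ) (hlow : LowBy μ' Y κ θ) {Λ₀ : Finset I} {C : (I → Bool) → Prop}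
    (hC : DepOn Λ₀ C) (T R : ℕ) :
    μ {w | ∃ t : ℝ, 0 ≤ t ∧ t ≤ T ∧ C (X t w)} ≤
      ENNReal.ofReal ((Real.exp ((2 * N + 1) * (T + 1)) * (K₀ * (1 + N / ε)) / κ) *
        (μ'.real (⋃ m, gridHit Y C R m) + (1 / (1 + (2 * N + 1) * (R + 1)) + κ * θ))) := by
  classical
  set hit : ℝ := μ'.real (⋃ m, gridHit Y C R m) with hhit
  set r : ℝ := 1 / (1 + (2 * N + 1) * (R + 1)) with hr
  have hA : 0 ≤ 1 + N / ε := by positivity
  obtain ⟨H, hH0, hH1, hHs, hHp⟩ := exists_super hN hN0 Λ₀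
  obtain ⟨H', hH0', hH1', hHs', hHp'⟩ := exists_super hN' hN0 Λ₀
  have main : ∀ δ : ℝ, 0 < δ → μ {w | ∃ t : ℝ, 0 ≤ t ∧ t ≤ T ∧ C (X t w)} ≤
      ENNReal.ofReal (Real.exp ((2 * N + 1) * (T + 1)) *
        (K₀ * ((1 + N / ε) * ((hit + r + (R + 1) * δ) / κ + θ)) + (T + 1) * δ)) := by
    intro δ hδ
    obtain ⟨F, _, hF⟩ := exists_moves D H ∅ hδ
    set U : Finset I := F.biUnion D.block with hU
    choose φ hφ1 hφ2 using hflip
    obtain ⟨F', hF'0, hF'⟩ := exists_moves D' H' (U.image φ) hδ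
    set Λ : Finset I := (Λ₀ ∪ U) ∪ F'.biUnion D'.block with hΛ
    have hΛ₀ : Λ₀ ⊆ Λ := Finset.subset_union_left.trans Finset.subset_union_left
    have hUΛ : U ⊆ Λ := Finset.subset_union_right.trans Finset.subset_union_left
    have hFΛ : ∀ j ∈ F, D.block j ⊆ Λ := fun j hj =>
      (Finset.subset_biUnion_of_mem D.block hj).trans hUΛ
    have hFΛ' : ∀ j ∈ F', D'.block j ⊆ Λ := fun j hj =>
      (Finset.subset_biUnion_of_mem D'.block hj).trans Finset.subset_union_right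
    have hlam : 0 < 2 * N + 1 := by linarith
    obtain ⟨g, hg⟩ := exists_potential' (c := fun k : F => D.rate k)
      (τ := fun k : F => rmove D Λ k) (fun k => rmove_bijective (hFΛ k.1 k.2))
      (fun k => D.rate_nonneg k) hlam (fun a => C (ext Λ a))
    obtain ⟨u, hu⟩ := exists_potential' (c := fun k : F' => D'.rate k)
      (τ := fun k : F' => rmove D' Λ k) (fun k => rmove_bijective (hFΛ' k.1 k.2))
      (fun k => D'.rate_nonneg k) hlam (fun a => C (ext Λ a))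
    have e4 : ∀ (k : F) (a : Λ → Bool) (x : Λ), x ∉ rblock D Λ k → rmove D Λ k a x = a x :=
      fun k a x hx => rmove_off (D := D) Λ k.1 a x hx
    have eU : ∀ k : F, rblock D Λ k ⊆ U.subtype (· ∈ Λ) := by
      intro k x hx
      rw [Finset.mem_subtype]
      exact Finset.subset_biUnion_of_mem D.block k.2 ((mem_rblock D Λ k x).1 hx)
    have eφ : ∀ x ∈ U.subtype (· ∈ Λ), ∃ k : F', (∀ a, rmove D' Λ k a = flipAt x a) ∧
        ε ≤ D'.rate k := by
      intro x hx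
      rw [Finset.mem_subtype] at hx
      refine ⟨⟨φ x, hF'0 (Finset.mem_image_of_mem φ hx)⟩, fun a => ?_, hφ2 x⟩
      show res Λ (D'.move (φ x) (ext Λ a)) = flipAt x a
      rw [hφ1 x, res_flip]
    have hcomp := compare_two (V := Λ) (K := F) (K' := F') (c := fun k : F => D.rate k)
      (τ := fun k : F => rmove D Λ k) (b := fun k : F => rblock D Λ k)
      (c' := fun k : F' => D'.rate k) (τ' := fun k : F' => rmove D' Λ k)
      (fun k => rmove_bijective (hFΛ k.1 k.2)) (fun k => D.rate_nonneg k) e4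
      (fun k => rmove_bijective (hFΛ' k.1 k.2)) (fun k => D'.rate_nonneg k) hN0
      (fun x => touch_fin hN F x) hε (U.subtype (· ∈ Λ)) eU eφ hlam hg hu
    have h1 := upper_pot hN hN0 hμ hX hdom hΛ₀ hC hH0 hH1 hHs hHp hFΛ hδ.le hF hg T
    have h2 := lower_pot hN' hN0 hμ' hY hΛ₀ hC hH0' hH1' hHs' hHp' hFΛ' hδ.le hF' hu R
    have h3 := hlow Λ u hu.nonneg hu.le_one
    refine h1.trans (ENNReal.ofReal_le_ofReal ?_)
    apply mul_le_mul_of_nonneg_left _ (Real.exp_pos _).le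
    have h4 : (1 / 2) ^ Λ.card * ∑ a, u a ≤ (hit + r + (R + 1) * δ) / κ + θ := by
      have : κ * ((1 / 2) ^ Λ.card * ∑ a, u a - θ) ≤ hit + r + (R + 1) * δ := h3.trans h2
      rw [← sub_le_iff_le_add, le_div_iff₀ hκ]
      linarith
    have h5 : (1 / 2 : ℝ) ^ Λ.card * ∑ a, g a ≤
        (1 + N / ε) * ((hit + r + (R + 1) * δ) / κ + θ) := by
      have : (0 : ℝ) ≤ (1 / 2) ^ Λ.card := by positivity
      calc (1 / 2 : ℝ) ^ Λ.card * ∑ a, g a ≤ (1 / 2) ^ Λ.card * ((1 + N / ε) * ∑ a, u a) :=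
            mul_le_mul_of_nonneg_left hcomp this
        _ = (1 + N / ε) * ((1 / 2) ^ Λ.card * ∑ a, u a) := by ring
        _ ≤ _ := mul_le_mul_of_nonneg_left h4 hA
    have h6 := mul_le_mul_of_nonneg_left h5 hK₀
    linarith
  have hlim : Tendsto (fun δ : ℝ => ENNReal.ofReal (Real.exp ((2 * N + 1) * (T + 1)) *
        (K₀ * ((1 + N / ε) * ((hit + r + (R + 1) * δ) / κ + θ)) + (T + 1) * δ))) (𝓝[>] 0)
      (𝓝 (ENNReal.ofReal ((Real.exp ((2 * N + 1) * (T + 1)) * (K₀ * (1 + N / ε)) / κ) *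
        (hit + (r + κ * θ))))) := by
    apply ENNReal.tendsto_ofReal
    have hc : Continuous fun δ : ℝ => Real.exp ((2 * N + 1) * (T + 1)) *
        (K₀ * ((1 + N / ε) * ((hit + r + (R + 1) * δ) / κ + θ)) + (T + 1) * δ) := by fun_prop
    have h1 := hc.tendsto 0
    have h2 : Real.exp ((2 * N + 1) * (T + 1)) *
        (K₀ * ((1 + N / ε) * ((hit + r + (R + 1) * 0) / κ + θ)) + (T + 1) * 0) =
        (Real.exp ((2 * N + 1) * (T + 1)) * (K₀ * (1 + N / ε)) / κ) *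
        (hit + (r + κ * θ)) := by
      field_simp
      ring
    rw [h2] at h1
    exact h1.mono_left nhdsWithin_le_nhds
  refine ge_of_tendsto hlim ?_
  filter_upwards [self_mem_nhdsWithin] with δ hδ
  exact main δ hδ

/-- the comparison for cylinder events, ordinary dynamical percolation -/
theorem cylinder_compare_ord [IsProbabilityMeasure μ'] [Countable J] (hN : D.BoundedBy N)
    (hN0 : 0 ≤ N) (hμ : μ.real Set.univ ≤ 1) (hX : IsSolution D μ X)
    (hY : IsDynamicalPercolation μ' Y) {K₀ : ℝ} (hK₀ : 0 ≤ K₀) (hdom : DomBy μ X K₀ 0)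
    {Λ₀ : Finset I} {C : (I → Bool) → Prop} (hC : DepOn Λ₀ C) (T R : ℕ) :
    μ {w | ∃ t : ℝ, 0 ≤ t ∧ t ≤ T ∧ C (X t w)} ≤
      ENNReal.ofReal ((Real.exp ((2 * N + 1) * (T + 1)) * (K₀ * (1 + 2 * N))) *
        (μ'.real (⋃ m, gridHit Y C R m) + 1 / (1 + (2 * N + 1) * (R + 1)))) := by
  classical
  set hit : ℝ := μ'.real (⋃ m, gridHit Y C R m) with hhit
  set r : ℝ := 1 / (1 + (2 * N + 1) * (R + 1)) with hr
  have hA : 0 ≤ 1 + 2 * N := by positivity
  obtain ⟨H, hH0, hH1, hHs, hHp⟩ := exists_super hN hN0 Λ₀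
  have main : ∀ δ : ℝ, 0 < δ → μ {w | ∃ t : ℝ, 0 ≤ t ∧ t ≤ T ∧ C (X t w)} ≤
      ENNReal.ofReal (Real.exp ((2 * N + 1) * (T + 1)) *
        (K₀ * ((1 + 2 * N) * (hit + r + δ)) + (T + 1) * δ)) := by
    intro δ hδ
    obtain ⟨F, _, hF⟩ := exists_moves D H ∅ hδ
    set Λ : Finset I := Λ₀ ∪ F.biUnion D.block with hΛ
    have hΛ₀ : Λ₀ ⊆ Λ := Finset.subset_union_left
    have hFΛ : ∀ j ∈ F, D.block j ⊆ Λ := fun j hj =>
      (Finset.subset_biUnion_of_mem D.block hj).trans Finset.subset_union_right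
    have hlam : 0 < 2 * N + 1 := by linarith
    obtain ⟨g, hg⟩ := exists_potential' (c := fun k : F => D.rate k)
      (τ := fun k : F => rmove D Λ k) (fun k => rmove_bijective (hFΛ k.1 k.2))
      (fun k => D.rate_nonneg k) hlam (fun a => C (ext Λ a))
    obtain ⟨u, hu⟩ := exists_potential (rateO (V := Λ)) flipAt flipAt_flipAt
      (fun _ => by unfold rateO; norm_num) hlam (fun a => C (ext Λ a))
    have e4 : ∀ (k : F) (a : Λ → Bool) (x : Λ), x ∉ rblock D Λ k → rmove D Λ k a x = a x :=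
      fun k a x hx => rmove_off (D := D) Λ k.1 a x hx
    have hbij : ∀ x : Λ, Function.Bijective (flipAt x) := fun x =>
      (show Function.Involutive (flipAt x) from fun a => flipAt_flipAt x a).bijective
    have hcomp := compare_two (V := Λ) (K := F) (K' := Λ) (c := fun k : F => D.rate k)
      (τ := fun k : F => rmove D Λ k) (b := fun k : F => rblock D Λ k)
      (c' := rateO (V := Λ)) (τ' := flipAt)
      (fun k => rmove_bijective (hFΛ k.1 k.2)) (fun k => D.rate_nonneg k) e4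
      hbij (fun _ => by unfold rateO; norm_num) hN0
      (fun x => touch_fin hN F x) (by norm_num : (0 : ℝ) < 1 / 2) Finset.univ
      (fun k => Finset.subset_univ _) (fun x _ => ⟨x, fun a => rfl, le_rfl⟩) hlam hg hu
    have h1 := upper_pot hN hN0 hμ hX hdom hΛ₀ hC hH0 hH1 hHs hHp hFΛ hδ.le hF hg T
    obtain ⟨m, hm⟩ := ord_lower hY (hC.mono hΛ₀) hlam hu R hδ
    have h4 : μ'.real (gridHit Y C R m) ≤ hit :=
      measureReal_mono (Set.subset_iUnion _ m) (measure_ne_top _ _)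
    have h3 := ord_init hY Λ u
    refine h1.trans (ENNReal.ofReal_le_ofReal ?_)
    apply mul_le_mul_of_nonneg_left _ (Real.exp_pos _).le
    have e5 : 1 + N / (1 / 2) = 1 + 2 * N := by ring
    rw [e5] at hcomp
    have h5 : (1 / 2 : ℝ) ^ Λ.card * ∑ a, g a ≤ (1 + 2 * N) * (hit + r + δ) := by
      have : (0 : ℝ) ≤ (1 / 2) ^ Λ.card := by positivity
      calc (1 / 2 : ℝ) ^ Λ.card * ∑ a, g a ≤ (1 / 2) ^ Λ.card * ((1 + 2 * N) * ∑ a, u a) :=
            mul_le_mul_of_nonneg_left hcomp this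
        _ = (1 + 2 * N) * ((1 / 2) ^ Λ.card * ∑ a, u a) := by ring
        _ ≤ _ := by
          apply mul_le_mul_of_nonneg_left _ hA
          rw [← h3]
          linarith
    have h6 := mul_le_mul_of_nonneg_left h5 hK₀
    linarith
  have hlim : Tendsto (fun δ : ℝ => ENNReal.ofReal (Real.exp ((2 * N + 1) * (T + 1)) *
        (K₀ * ((1 + 2 * N) * (hit + r + δ)) + (T + 1) * δ))) (𝓝[>] 0)
      (𝓝 (ENNReal.ofReal ((Real.exp ((2 * N + 1) * (T + 1)) * (K₀ * (1 + 2 * N))) *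
        (hit + r)))) := by
    apply ENNReal.tendsto_ofReal
    have hc : Continuous fun δ : ℝ => Real.exp ((2 * N + 1) * (T + 1)) *
        (K₀ * ((1 + 2 * N) * (hit + r + δ)) + (T + 1) * δ) := by fun_prop
    have h1 := hc.tendsto 0
    have h2 : Real.exp ((2 * N + 1) * (T + 1)) *
        (K₀ * ((1 + 2 * N) * (hit + r + 0)) + (T + 1) * 0) =
        (Real.exp ((2 * N + 1) * (T + 1)) * (K₀ * (1 + 2 * N))) * (hit + r) := by
      ring
    rw [h2] at h1
    exact h1.mono_left nhdsWithin_le_nhds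
  refine ge_of_tendsto hlim ?_
  filter_upwards [self_mem_nhdsWithin] with δ hδ
  exact main δ hδ

end Pool.Agent.KS6_99.EX
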