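import Mathlib
import Pool.Graph.R_seed8.Results.MP_20d613_pr.ExclusionVsOrdinary
import Pool.Agent.KS6_99.EX.Compare

set_option autoImplicit false

open MeasureTheory Filter Topology
open Pool.Agent.Results.MP_20d613_pr.ExclusionVsOrdinary

namespace Pool.Agent.KS6_99.EX

variable {I J J' : Type*} [DecidableEq I] {D : Dynamics I J} {D' : Dynamics I J'} {N : ℝ}
  {Ω : Type*} [MeasurableSpace Ω] {μ : Measure Ω} [IsFiniteMeasure μ] {X : ℝ → Ω → I → Bool}
  {Ω' : Type*} [MeasurableSpace Ω'] {μ' : Measure Ω'} [IsFiniteMeasure μ']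
  {Y : ℝ → Ω' → I → Bool}

/-- the comparison for Borel null sets, general dynamics -/
theorem quant [Countable I] [Countable J] [Countable J'] (hN : D.BoundedBy N)
    (hN' : D'.BoundedBy N) (hN0 : 0 ≤ N) {ε : ℝ} (hε : 0 < ε)
    (hflip : ∀ x, ∃ j, (∀ ω, D'.move j ω = flipAt x ω) ∧ ε ≤ D'.rate j)
    (hμ : μ.real Set.univ ≤ 1) (hμ' : μ'.real Set.univ ≤ 1) (hX : IsSolution D μ X)
    (hY : IsSolution D' μ' Y) {K₀ : ℝ} (hK₀ : 0 ≤ K₀) (hdom : DomBy μ X K₀ 0) {κ θ : ℝ}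
    (hκ : 0 < κ) (hlow : LowBy μ' Y κ θ) {K₁ : ℝ} (hdom' : DomBy μ' Y K₁ 0) (T R : ℕ)
    {A : Set (I → Bool)} (hA : MeasurableSet A) (hA0 : fairCoins I A = 0) :
    μ {w | ∃ t : ℝ, 0 ≤ t ∧ t ≤ T ∧ X t w ∈ A} ≤
      ENNReal.ofReal ((Real.exp ((2 * N + 1) * (T + 1)) * (K₀ * (1 + N / ε)) / κ) *
        (μ'.real {w | ∃ t : ℝ, 0 ≤ t ∧ t ≤ (R : ℝ) + 1 ∧ Y t w ∈ A} +
          (1 / (1 + (2 * N + 1) * (R + 1)) + κ * θ))) := by
  apply assemble hY.measurable hY.cadlag (by positivity) _ _ hA hA0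
  · intro Λ C hC
    exact cylinder_compare hN hN' hN0 hε hflip hμ hμ' hX hY hK₀ hdom hκ hlow hC T R
  · intro K C Λ hC hKC hlim x
    have := bad_zero hN' hN0 hY (fun t ht => law_le hN' hN0 hμ' hY hdom' ht) hC hKC hlim (R + 1) x
    push_cast at this
    exact this

/-- the comparison for Borel null sets, ordinary dynamical percolation -/
theorem quant_ord [IsProbabilityMeasure μ'] [Countable I] [Countable J] (hN : D.BoundedBy N)
    (hN0 : 0 ≤ N) (hμ : μ.real Set.univ ≤ 1) (hX : IsSolution D μ X)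
    (hY : IsDynamicalPercolation μ' Y) {K₀ : ℝ} (hK₀ : 0 ≤ K₀) (hdom : DomBy μ X K₀ 0) (T R : ℕ)
    {A : Set (I → Bool)} (hA : MeasurableSet A) (hA0 : fairCoins I A = 0) :
    μ {w | ∃ t : ℝ, 0 ≤ t ∧ t ≤ T ∧ X t w ∈ A} ≤
      ENNReal.ofReal ((Real.exp ((2 * N + 1) * (T + 1)) * (K₀ * (1 + 2 * N))) *
        (μ'.real {w | ∃ t : ℝ, 0 ≤ t ∧ t ≤ (R : ℝ) + 1 ∧ Y t w ∈ A} +
          1 / (1 + (2 * N + 1) * (R + 1)))) := by
  apply assemble hY.measurable hY.cadlag (by positivity) _ _ hA hA0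
  · intro Λ C hC
    exact cylinder_compare_ord hN hN0 hμ hX hY hK₀ hdom hC T R
  · intro K C Λ hC hKC hlim x
    exact measure_bad_zero hY hC hKC hlim (by positivity) x

/-! ### absolutely continuous initial laws -/

omit [DecidableEq I] [IsFiniteMeasure μ] in
lemma IsSolution.restrict (hX : IsSolution D μ X) {B : Set (I → Bool)} (hB : MeasurableSet B) :
    IsSolution D (μ.restrict (X 0 ⁻¹' B)) X where
  measurable := hX.measurable
  cadlag := ae_restrict_of_ae hX.cadlag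
  martingale := by
    intro f hf s t h0 hst E hE
    have hB0 : MeasurableSet[past X s] (X 0 ⁻¹' B) := measurableSet_past le_rfl h0 hB
    have hEm := past_le hX.measurable s E hE
    have key : ∀ φ : Ω → ℝ, ∫ w in E, φ w ∂(μ.restrict (X 0 ⁻¹' B)) =
        ∫ w in E ∩ X 0 ⁻¹' B, φ w ∂μ := by
      intro φ
      rw [Measure.restrict_restrict hEm]
    simp only [key]
    exact hX.martingale f hf s t h0 hst _ (hE.inter hB0)

omit [DecidableEq I] in
lemma real_restrict_le (hμ : μ.real Set.univ ≤ 1) (S : Set Ω) :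
    (μ.restrict S).real Set.univ ≤ 1 := by
  refine le_trans ?_ hμ
  rw [measureReal_def, measureReal_def]
  exact ENNReal.toReal_mono (measure_ne_top _ _) (Measure.restrict_apply_le _ _)

lemma dom_of_le {K₀ : ℝ} (hK₀ : 0 ≤ K₀) {B : Set (I → Bool)} (hB : MeasurableSet B)
    (hm : Measurable (X 0))
    (h : ∀ S, MeasurableSet S → μ.map (X 0) (S ∩ B) ≤ ENNReal.ofReal K₀ * fairCoins I S) :
    DomBy (μ.restrict (X 0 ⁻¹' B)) X K₀ 0 := by
  intro Λ C hC
  have hCm : MeasurableSet {ω : I → Bool | C ω} := measurableSet_setOfPred.2 hC.measurable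
  have h1 := h _ hCm
  rw [Measure.map_apply hm (hCm.inter hB)] at h1
  have h2 : (μ.restrict (X 0 ⁻¹' B)) {w | C (X 0 w)} = μ (X 0 ⁻¹' ({ω | C ω} ∩ B)) := by
    rw [Measure.restrict_apply' (hm hB)]
    rfl
  rw [measureReal_def, h2]
  have h3 := ENNReal.toReal_mono
    (ENNReal.mul_ne_top ENNReal.ofReal_ne_top (measure_ne_top _ _)) h1
  rwa [ENNReal.toReal_mul, ENNReal.toReal_ofReal hK₀] at h3

lemma exists_dom (hm : Measurable (X 0)) (hac : μ.map (X 0) ≪ fairCoins I) {S : Set Ω}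
    (hS : μ S ≠ 0) :
    ∃ (B : Set (I → Bool)) (k : ℕ), MeasurableSet B ∧
      DomBy (μ.restrict (X 0 ⁻¹' B)) X k 0 ∧ (μ.restrict (X 0 ⁻¹' B)) S ≠ 0 := by
  set ν := μ.map (X 0) with hν
  set ρ := ν.rnDeriv (fairCoins I) with hρ
  have hρm : Measurable ρ := Measure.measurable_rnDeriv _ _
  set B : ℕ → Set (I → Bool) := fun k => {ω | ρ ω ≤ k} with hB
  have hBm : ∀ k, MeasurableSet (B k) := fun k => measurableSet_le hρm measurable_const
  have hcover : ∀ᵐ w ∂μ, ∃ k : ℕ, X 0 w ∈ B k := by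
    have h1 : ∀ᵐ ω ∂(fairCoins I), ρ ω < ⊤ := Measure.rnDeriv_lt_top ν (fairCoins I)
    have h2 : ∀ᵐ ω ∂ν, ρ ω < ⊤ := hac.ae_le h1
    have h3 := ae_of_ae_map hm.aemeasurable h2
    filter_upwards [h3] with w hw
    obtain ⟨k, hk⟩ := ENNReal.exists_nat_gt hw.ne
    exact ⟨k, hk.le⟩
  by_contra hcon
  push Not at hcon
  apply hS
  have hdomk : ∀ k, DomBy (μ.restrict (X 0 ⁻¹' B k)) X k 0 := by
    intro k
    apply dom_of_le (Nat.cast_nonneg k) (hBm k) hm
    intro S hSm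
    rw [← hν, ← Measure.setLIntegral_rnDeriv hac, ENNReal.ofReal_natCast]
    calc ∫⁻ ω in S ∩ B k, ν.rnDeriv (fairCoins I) ω ∂(fairCoins I)
        ≤ ∫⁻ _ in S ∩ B k, (k : ENNReal) ∂(fairCoins I) :=
          setLIntegral_mono' (hSm.inter (hBm k)) fun ω hω => hω.2
      _ = k * fairCoins I (S ∩ B k) := by rw [setLIntegral_const]
      _ ≤ k * fairCoins I S := by gcongr; exact Set.inter_subset_left
  have hz : ∀ k, μ (S ∩ X 0 ⁻¹' B k) = 0 := by
    intro k
    have := hcon (B k) k (hBm k) (hdomk k)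
    rwa [Measure.restrict_apply' (hm (hBm k))] at this
  have h1 : μ (⋃ k, S ∩ X 0 ⁻¹' B k) = 0 := measure_iUnion_null hz
  have h2 : μ S ≤ μ (⋃ k, S ∩ X 0 ⁻¹' B k) := by
    apply measure_mono_ae
    filter_upwards [hcover] with w hw hwS
    obtain ⟨k, hk⟩ := hw
    exact Set.mem_iUnion.2 ⟨k, hwS, hk⟩
  rw [h1] at h2
  exact le_antisymm h2 bot_le

omit [IsFiniteMeasure μ] in
lemma fair_integral (Λ : Finset I) (f : (Λ → Bool) → ℝ) :
    ∫ ω, f (res Λ ω) ∂(fairCoins I) = (1 / 2) ^ Λ.card * ∑ a, f a := by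
  rw [integral_comp_finite (μ := fairCoins I) (measurable_res Λ) f, Finset.mul_sum]
  exact Finset.sum_congr rfl fun a _ => by rw [fairCoins_res Λ a]

lemma exists_low (hm : Measurable (X 0)) (hac : fairCoins I ≪ μ.map (X 0)) {θ : ℝ}
    (hθ : 0 < θ) :
    ∃ (B : Set (I → Bool)) (k : ℕ), 0 < k ∧ MeasurableSet B ∧
      DomBy (μ.restrict (X 0 ⁻¹' B)) X k 0 ∧ LowBy (μ.restrict (X 0 ⁻¹' B)) X (1 / k) θ := by
  set ν := μ.map (X 0) with hν
  set σ := (fairCoins I).rnDeriv ν with hσ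
  have hσm : Measurable σ := Measure.measurable_rnDeriv _ _
  set B : ℕ → Set (I → Bool) := fun k => {ω | (k : ENNReal)⁻¹ ≤ σ ω ∧ σ ω ≤ k} with hB
  have hBm : ∀ k, MeasurableSet (B k) := fun k =>
    (measurableSet_le measurable_const hσm).inter (measurableSet_le hσm measurable_const)
  have hmono : Monotone B := by
    intro k l hkl ω hω
    have h1 : (k : ENNReal) ≤ l := by exact_mod_cast hkl
    exact ⟨(ENNReal.inv_le_inv.2 h1).trans hω.1, hω.2.trans h1⟩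
  have hcover : ∀ᵐ ω ∂(fairCoins I), ∃ k : ℕ, ω ∈ B k := by
    have h1 : ∀ᵐ ω ∂(fairCoins I), σ ω < ⊤ :=
      hac.ae_le (Measure.rnDeriv_lt_top (fairCoins I) ν)
    have h2 : ∀ᵐ ω ∂(fairCoins I), 0 < σ ω := Measure.rnDeriv_pos hac
    filter_upwards [h1, h2] with ω hω1 hω2
    obtain ⟨k, hk⟩ := ENNReal.exists_nat_gt hω1.ne
    obtain ⟨l, hl⟩ := ENNReal.exists_nat_gt (ENNReal.inv_ne_top.2 hω2.ne')
    refine ⟨max k l, ?_, ?_⟩
    · rw [ENNReal.inv_le_iff_inv_le]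
      refine hl.le.trans ?_
      exact_mod_cast le_max_right k l
    · refine hk.le.trans ?_
      exact_mod_cast le_max_left k l
  have hlim : Tendsto (fun k => fairCoins I (B k)ᶜ) atTop (𝓝 0) := by
    have h1 := tendsto_measure_iInter_atTop (μ := fairCoins I)
      (fun k => (hBm k).compl.nullMeasurableSet)
      (fun k l hkl => Set.compl_subset_compl.2 (hmono hkl)) ⟨0, measure_ne_top _ _⟩
    have h2 : fairCoins I (⋂ k, (B k)ᶜ) = 0 := by
      rw [measure_eq_zero_iff_ae_notMem]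
      filter_upwards [hcover] with ω hω hmem
      obtain ⟨k, hk⟩ := hω
      exact Set.mem_iInter.1 hmem k hk
    rw [h2] at h1
    exact h1
  have hev := hlim.eventually_lt_const (ENNReal.ofReal_pos.2 hθ)
  obtain ⟨k, hk1, hk0⟩ := (hev.and (eventually_gt_atTop 0)).exists
  have hkR : (0 : ℝ) < k := by exact_mod_cast hk0
  have hkE : (k : ENNReal) ≠ 0 := by exact_mod_cast hk0.ne'
  have hkT : (k : ENNReal) ≠ ⊤ := ENNReal.natCast_ne_top k
  refine ⟨B k, k, hk0, hBm k, ?_, ?_⟩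
  · apply dom_of_le hkR.le (hBm k) hm
    intro S hSm
    rw [← hν, ENNReal.ofReal_natCast]
    have h1 : (k : ENNReal)⁻¹ * ν (S ∩ B k) ≤ fairCoins I (S ∩ B k) := by
      rw [← Measure.setLIntegral_rnDeriv hac (S ∩ B k), ← setLIntegral_const]
      exact setLIntegral_mono' (hSm.inter (hBm k)) fun ω hω => hω.2.1
    calc ν (S ∩ B k) = k * ((k : ENNReal)⁻¹ * ν (S ∩ B k)) := by
          rw [← mul_assoc, ENNReal.mul_inv_cancel hkE hkT, one_mul]
      _ ≤ k * fairCoins I (S ∩ B k) := by gcongr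
      _ ≤ k * fairCoins I S := by gcongr; exact Set.inter_subset_left
  · intro Λ f hf0 hf1
    have hfm : Measurable fun ω : I → Bool => f (res Λ ω) := (depOn_comp_res Λ f).measurable
    have hfI : ∀ (ν' : Measure (I → Bool)) [IsFiniteMeasure ν'],
        Integrable (fun ω => f (res Λ ω)) ν' := fun ν' _ =>
      Integrable.of_bound hfm.aestronglyMeasurable 1
        (Filter.Eventually.of_forall fun ω => by
          rw [Real.norm_eq_abs, abs_le]
          exact ⟨by linarith [hf0 (res Λ ω)], hf1 _⟩)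
    have h1 : (fairCoins I).restrict (B k) ≤ (k : ENNReal) • ν.restrict (B k) := by
      rw [Measure.le_iff]
      intro S hSm
      rw [Measure.smul_apply, smul_eq_mul, Measure.restrict_apply hSm,
        Measure.restrict_apply hSm, ← Measure.setLIntegral_rnDeriv hac (S ∩ B k),
        ← setLIntegral_const]
      exact setLIntegral_mono' (hSm.inter (hBm k)) fun ω hω => hω.2.2
    have h2 : ∫ ω in B k, f (res Λ ω) ∂(fairCoins I) ≤ k * ∫ ω in B k, f (res Λ ω) ∂ν := by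
      have h3 := integral_mono_measure h1 (f := fun ω => f (res Λ ω))
        (Filter.Eventually.of_forall fun ω => hf0 _)
        ((hfI (ν.restrict (B k))).smul_measure hkT)
      rw [integral_smul_measure] at h3
      simpa using h3
    have h3 : ∫ ω in B k, f (res Λ ω) ∂ν = ∫ w in X 0 ⁻¹' B k, f (res Λ (X 0 w)) ∂μ :=
      setIntegral_map (hBm k) hfm.aestronglyMeasurable hm.aemeasurable
    have h4 := integral_add_compl (hBm k) (hfI (fairCoins I))
    have h5 : ∫ ω in (B k)ᶜ, f (res Λ ω) ∂(fairCoins I) ≤ θ := by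
      have h6 : ∫ ω in (B k)ᶜ, f (res Λ ω) ∂(fairCoins I) ≤
          ∫ _ in (B k)ᶜ, (1 : ℝ) ∂(fairCoins I) :=
        setIntegral_mono (hfI _).integrableOn (integrable_const _).integrableOn fun ω => hf1 _
      rw [setIntegral_const, smul_eq_mul, mul_one] at h6
      refine h6.trans ?_
      have h7 := ENNReal.toReal_mono ENNReal.ofReal_ne_top hk1.le
      rwa [ENNReal.toReal_ofReal hθ.le] at h7
    rw [fair_integral] at h4
    rw [one_div, inv_mul_le_iff₀ hkR, ← h3]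
    linarith

/-- a bounded time interval -/
lemma exists_time {S : Set (I → Bool)} (h : HasExceptionalTimes μ X S) :
    ∃ T : ℕ, μ {w | ∃ t : ℝ, 0 ≤ t ∧ t ≤ T ∧ X t w ∈ S} ≠ 0 := by
  by_contra hcon
  push Not at hcon
  have h1 : μ (⋃ T : ℕ, {w | ∃ t : ℝ, 0 ≤ t ∧ t ≤ T ∧ X t w ∈ S}) = 0 :=
    measure_iUnion_null hcon
  have h2 : {w | ∃ t : ℝ, 0 ≤ t ∧ X t w ∈ S} ⊆
      ⋃ T : ℕ, {w | ∃ t : ℝ, 0 ≤ t ∧ t ≤ T ∧ X t w ∈ S} := by
    rintro w ⟨t, ht, hAt⟩
    obtain ⟨T, hT⟩ := exists_nat_ge t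
    exact Set.mem_iUnion.2 ⟨T, t, ht, hT, hAt⟩
  have h3 : μ {w | ∃ t : ℝ, 0 ≤ t ∧ X t w ∈ S} = 0 := measure_mono_null h2 h1
  unfold HasExceptionalTimes at h
  rw [h3] at h
  exact lt_irrefl _ h

/-- no exceptional times, in bounded intervals -/
lemma no_times {S : Set (I → Bool)} (h : ¬ HasExceptionalTimes μ X S) (r : ℝ) :
    μ {w | ∃ t : ℝ, 0 ≤ t ∧ t ≤ r ∧ X t w ∈ S} = 0 := by
  have h1 : μ {w | ∃ t : ℝ, 0 ≤ t ∧ X t w ∈ S} = 0 := by
    unfold HasExceptionalTimes at h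
    exact le_antisymm (not_lt.1 h) bot_le
  apply measure_mono_null _ h1
  rintro w ⟨t, ht, _, hAt⟩
  exact ⟨t, ht, hAt⟩

/-- a small number of the form `1 / (1 + lam (R + 1))` -/
lemma exists_R {lam E η : ℝ} (hlam : 1 ≤ lam) (hE : 0 ≤ E) (hη : 0 < η) :
    ∃ R : ℕ, E * (1 / (1 + lam * (R + 1))) < η := by
  obtain ⟨R, hR⟩ := exists_nat_gt (E / η)
  refine ⟨R, ?_⟩
  have hR0 : (0 : ℝ) ≤ R := Nat.cast_nonneg R
  have h1 : (R : ℝ) < 1 + lam * (R + 1) := by nlinarith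
  have h2 : 0 < 1 + lam * ((R : ℝ) + 1) := by linarith
  rw [mul_one_div, div_lt_iff₀ h2]
  rw [div_lt_iff₀ hη] at hR
  nlinarith

/-- transfer of exceptional times between local dynamics -/
theorem transfer [Countable I] [Countable J] [Countable J'] (hN : D.BoundedBy N)
    (hN' : D'.BoundedBy N) (hN0 : 0 ≤ N) {ε : ℝ} (hε : 0 < ε)
    (hflip : ∀ x, ∃ j, (∀ ω, D'.move j ω = flipAt x ω) ∧ ε ≤ D'.rate j)
    (hμ : μ.real Set.univ ≤ 1) (hμ' : μ'.real Set.univ ≤ 1) (hX : IsSolution D μ X)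
    (hY : IsSolution D' μ' Y) (hacX : μ.map (X 0) ≪ fairCoins I)
    (hacY : fairCoins I ≪ μ'.map (Y 0))
    {A : Set (I → Bool)} (hA : MeasurableSet A) (hA0 : fairCoins I A = 0)
    (h : HasExceptionalTimes μ X A) : HasExceptionalTimes μ' Y A := by
  by_contra hcon
  obtain ⟨T, hT⟩ := exists_time h
  obtain ⟨B, k, hBm, hdom, hpos⟩ := exists_dom (hX.measurable 0 le_rfl) hacX hT
  set S : Set Ω := {w | ∃ t : ℝ, 0 ≤ t ∧ t ≤ T ∧ X t w ∈ A} with hS
  set p : ℝ := ((μ.restrict (X 0 ⁻¹' B)) S).toReal with hp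
  have hp0 : 0 < p := ENNReal.toReal_pos hpos (measure_ne_top _ _)
  set E : ℝ := Real.exp ((2 * N + 1) * (T + 1)) * (k * (1 + N / ε)) with hE
  have hE0 : 0 ≤ E := by positivity
  obtain ⟨B', l, hl, hBm', hdom', hlow'⟩ := exists_low (hY.measurable 0 le_rfl) hacY
    (show 0 < p / (4 * (E + 1)) by positivity)
  have hlR : (0 : ℝ) < l := by exact_mod_cast hl
  obtain ⟨R, hR⟩ := exists_R (lam := 2 * N + 1) (E := E * l) (η := p / 4) (by linarith)
    (by positivity) (by positivity)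
  have h1 := quant hN hN' hN0 hε hflip (real_restrict_le hμ _) (real_restrict_le hμ' _)
    (hX.restrict hBm) (hY.restrict hBm') (Nat.cast_nonneg k) hdom
    (show (0 : ℝ) < 1 / l by positivity) hlow' hdom' T R hA hA0
  have h2 : (μ'.restrict (Y 0 ⁻¹' B')).real
      {w | ∃ t : ℝ, 0 ≤ t ∧ t ≤ (R : ℝ) + 1 ∧ Y t w ∈ A} = 0 := by
    have h3 := no_times hcon ((R : ℝ) + 1)
    have h4 : (μ'.restrict (Y 0 ⁻¹' B')) {w | ∃ t : ℝ, 0 ≤ t ∧ t ≤ (R : ℝ) + 1 ∧ Y t w ∈ A} ≤ 0 :=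
      (Measure.restrict_apply_le _ _).trans h3.le
    rw [measureReal_def, le_antisymm h4 bot_le]
    rfl
  rw [h2, zero_add] at h1
  have h3 := ENNReal.toReal_mono ENNReal.ofReal_ne_top h1
  rw [ENNReal.toReal_ofReal (by positivity)] at h3
  have h4 : Real.exp ((2 * N + 1) * (T + 1)) * (k * (1 + N / ε)) / (1 / l) *
      (1 / (1 + (2 * N + 1) * (R + 1)) + 1 / l * (p / (4 * (E + 1)))) =
      E * l * (1 / (1 + (2 * N + 1) * (R + 1))) + p * (E / (4 * (E + 1))) := by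
    rw [← hE]
    have : 0 < 1 + (2 * N + 1) * ((R : ℝ) + 1) := by positivity
    field_simp
  rw [h4] at h3
  have h5 : E / (4 * (E + 1)) ≤ 1 / 4 := by
    rw [div_le_div_iff₀ (by positivity) (by norm_num)]
    linarith
  have h6 := mul_le_mul_of_nonneg_left h5 hp0.le
  have h7 : p ≤ E * l * (1 / (1 + (2 * N + 1) * (R + 1))) + p * (E / (4 * (E + 1))) := h3
  linarith

/-- transfer of exceptional times to ordinary dynamical percolation -/
theorem transfer_ord [IsProbabilityMeasure μ'] [Countable I] [Countable J] (hN : D.BoundedBy N)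
    (hN0 : 0 ≤ N) (hμ : μ.real Set.univ ≤ 1) (hX : IsSolution D μ X)
    (hY : IsDynamicalPercolation μ' Y) (hacX : μ.map (X 0) ≪ fairCoins I)
    {A : Set (I → Bool)} (hA : MeasurableSet A) (hA0 : fairCoins I A = 0)
    (h : HasExceptionalTimes μ X A) : HasExceptionalTimes μ' Y A := by
  by_contra hcon
  obtain ⟨T, hT⟩ := exists_time h
  obtain ⟨B, k, hBm, hdom, hpos⟩ := exists_dom (hX.measurable 0 le_rfl) hacX hT
  set S : Set Ω := {w | ∃ t : ℝ, 0 ≤ t ∧ t ≤ T ∧ X t w ∈ A} with hS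
  set p : ℝ := ((μ.restrict (X 0 ⁻¹' B)) S).toReal with hp
  have hp0 : 0 < p := ENNReal.toReal_pos hpos (measure_ne_top _ _)
  set E : ℝ := Real.exp ((2 * N + 1) * (T + 1)) * (k * (1 + 2 * N)) with hE
  have hE0 : 0 ≤ E := by positivity
  obtain ⟨R, hR⟩ := exists_R (lam := 2 * N + 1) (E := E) (η := p) (by linarith) hE0 hp0
  have h1 := quant_ord hN hN0 (real_restrict_le hμ _) (hX.restrict hBm) hY
    (Nat.cast_nonneg k) hdom T R hA hA0
  have h2 : μ'.real {w | ∃ t : ℝ, 0 ≤ t ∧ t ≤ (R : ℝ) + 1 ∧ Y t w ∈ A} = 0 := by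
    rw [measureReal_def, no_times hcon ((R : ℝ) + 1)]
    rfl
  rw [h2, zero_add] at h1
  have h3 := ENNReal.toReal_mono ENNReal.ofReal_ne_top h1
  rw [ENNReal.toReal_ofReal (by positivity)] at h3
  have h7 : p ≤ E * (1 / (1 + (2 * N + 1) * (R + 1))) := h3
  linarith

end Pool.Agent.KS6_99.EX
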